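import Pool.Agent.H447.TR.Tree

/-!
# The Collatz graph: from most numbers to all numbers
-/

set_option autoImplicit false

namespace Pool.Agent.H447.TR

open Pool.Agent.H201.AD (exists_computable_find)

lemma dom_approx {α σ : Type*} [Primcodable α] [Primcodable σ] {F : α →. σ} (hF : Partrec F) :
    ∃ δ : α × ℕ → Bool, Computable δ ∧ (∀ x s s', s ≤ s' → δ (x, s) = true → δ (x, s') = true) ∧
      ∀ x, (F x).Dom ↔ ∃ s, δ (x, s) = true := by
  obtain ⟨c, hc⟩ := Nat.Partrec.Code.exists_code.1 hF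
  have hc2 : ∀ x, (c.eval (Encodable.encode x)).Dom ↔ (F x).Dom := by
    intro x
    rw [hc]
    simp [Encodable.encodek]
  refine ⟨fun a => (c.evaln a.2 (Encodable.encode a.1)).isSome, ?_, ?_, ?_⟩
  · have h1 : Primrec fun a : α × ℕ => (c.evaln a.2 (Encodable.encode a.1)).isSome :=
      Primrec.option_isSome.comp (Nat.Partrec.Code.primrec_evaln.comp
        (Primrec.pair (Primrec.pair Primrec.snd (Primrec.const c))
          (Primrec.encode.comp Primrec.fst)))
    exact h1.to_comp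
  · intro x s s' h hs
    obtain ⟨y, hy⟩ := Option.isSome_iff_exists.1 hs
    have h2 : y ∈ c.evaln s' (Encodable.encode x) :=
      Nat.Partrec.Code.evaln_mono h (show y ∈ c.evaln s (Encodable.encode x) from hy)
    exact Option.isSome_iff_exists.2 ⟨y, h2⟩
  · intro x
    rw [← hc2, Part.dom_iff_mem]
    constructor
    · rintro ⟨y, hy⟩
      obtain ⟨s, hs⟩ := Nat.Partrec.Code.evaln_complete.1 hy
      exact ⟨s, Option.isSome_iff_exists.2 ⟨y, hs⟩⟩
    · rintro ⟨s, hs⟩
      obtain ⟨y, hy⟩ := Option.isSome_iff_exists.1 hs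
      exact ⟨y, Nat.Partrec.Code.evaln_sound (show y ∈ c.evaln s _ from hy)⟩

lemma not_Rc_zero : ¬ Rc 0 := by
  rintro ⟨k, hk⟩
  have h1 : co^[k] 0 = 0 := by
    induction k with
    | zero => rfl
    | succ k ih =>
      rw [Function.iterate_succ_apply']
      have : co^[k] 0 = 0 := by
        clear hk ih
        induction k with
        | zero => rfl
        | succ k ih => rw [Function.iterate_succ_apply', ih]; rfl
      rw [this]
      rfl
  rw [h1] at hk
  exact absurd hk (by decide)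

/-- `n` is shown to reach `1`, or most of the numbers above `n` are claimed not to reach it -/
def ok (δ : ((ℕ × ℕ) × ℕ) × ℕ → Bool) (N b l x s n : ℕ) : Bool :=
  gg (co^[s] n) || decide (2 ^ l ≤
    2 * Pool.Agent.Q324.SC.cnt (fun k => δ (((N, b), node x l k), s)) (2 ^ l))

lemma gg_comp : Computable gg := by
  have h : ∀ a, Computable fun n : ℕ => decide (n = a) := fun a =>
    eq_dec_comp Computable.id (Computable.const a)
  exact Primrec.or.to_comp.comp (h 1) (Primrec.or.to_comp.comp (h 2) (h 4))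

attribute [local irreducible] Pool.Agent.Q324.SC.cnt node gg in
lemma ok_comp {δ : ((ℕ × ℕ) × ℕ) × ℕ → Bool} (hδ : Computable δ) :
    Computable fun a : ((ℕ × ℕ) × ℕ) × (ℕ × ℕ) × ℕ =>
      ok δ a.1.1.1 a.1.1.2 a.1.2 a.2.1.1 a.2.1.2 a.2.2 := by
  -- a = (((N, b), l), ((x, s), n))
  have hN : Computable fun a : ((ℕ × ℕ) × ℕ) × (ℕ × ℕ) × ℕ => a.1.1.1 :=
    Computable.fst.comp (Computable.fst.comp Computable.fst)
  have hb : Computable fun a : ((ℕ × ℕ) × ℕ) × (ℕ × ℕ) × ℕ => a.1.1.2 :=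
    Computable.snd.comp (Computable.fst.comp Computable.fst)
  have hl : Computable fun a : ((ℕ × ℕ) × ℕ) × (ℕ × ℕ) × ℕ => a.1.2 :=
    Computable.snd.comp Computable.fst
  have hx : Computable fun a : ((ℕ × ℕ) × ℕ) × (ℕ × ℕ) × ℕ => a.2.1.1 :=
    Computable.fst.comp (Computable.fst.comp Computable.snd)
  have hs : Computable fun a : ((ℕ × ℕ) × ℕ) × (ℕ × ℕ) × ℕ => a.2.1.2 :=
    Computable.snd.comp (Computable.fst.comp Computable.snd)
  have hn : Computable fun a : ((ℕ × ℕ) × ℕ) × (ℕ × ℕ) × ℕ => a.2.2 :=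
    Computable.snd.comp Computable.snd
  have h1 : Computable fun a : ((ℕ × ℕ) × ℕ) × (ℕ × ℕ) × ℕ => gg (co^[a.2.1.2] a.2.2) :=
    gg_comp.comp (Computable.comp (f := fun x : ℕ × ℕ => co^[x.1] x.2)
      (g := fun a : ((ℕ × ℕ) × ℕ) × (ℕ × ℕ) × ℕ => (a.2.1.2, a.2.2)) (iter_comp co_comp) (hs.pair hn))
  have h2 : Computable fun a : ((ℕ × ℕ) × ℕ) × (ℕ × ℕ) × ℕ => 2 ^ a.1.2 :=
    pow_comp (Computable.const 2) hl
  have h3 : Computable fun y : (((ℕ × ℕ) × ℕ) × (ℕ × ℕ) × ℕ) × ℕ =>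
      node y.1.2.1.1 y.1.1.2 y.2 :=
    Computable.comp (f := fun x : (ℕ × ℕ) × ℕ => node x.1.1 x.1.2 x.2)
      (g := fun y : (((ℕ × ℕ) × ℕ) × (ℕ × ℕ) × ℕ) × ℕ => ((y.1.2.1.1, y.1.1.2), y.2)) node_comp
      (((hx.comp Computable.fst).pair (hl.comp Computable.fst)).pair Computable.snd)
  have h4 : Computable fun y : (((ℕ × ℕ) × ℕ) × (ℕ × ℕ) × ℕ) × ℕ =>
      δ (((y.1.1.1.1, y.1.1.1.2), node y.1.2.1.1 y.1.1.2 y.2), y.1.2.1.2) :=
    Computable.comp (f := δ)
      (g := fun y : (((ℕ × ℕ) × ℕ) × (ℕ × ℕ) × ℕ) × ℕ =>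
        (((y.1.1.1.1, y.1.1.1.2), node y.1.2.1.1 y.1.1.2 y.2), y.1.2.1.2)) hδ
      ((((hN.comp Computable.fst).pair (hb.comp Computable.fst)).pair h3).pair
        (hs.comp Computable.fst))
  have h5 : Computable fun a : ((ℕ × ℕ) × ℕ) × (ℕ × ℕ) × ℕ =>
      Pool.Agent.Q324.SC.cnt (fun k => δ (((a.1.1.1, a.1.1.2), node a.2.1.1 a.1.2 k), a.2.1.2))
        (2 ^ a.1.2) :=
    Pool.Agent.Q324.SC.cnt_comp (f := fun (a : ((ℕ × ℕ) × ℕ) × (ℕ × ℕ) × ℕ) k =>
      δ (((a.1.1.1, a.1.1.2), node a.2.1.1 a.1.2 k), a.2.1.2)) (m := fun a => 2 ^ a.1.2) h4 h2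
  have h6 : Computable fun a : ((ℕ × ℕ) × ℕ) × (ℕ × ℕ) × ℕ =>
      2 * Pool.Agent.Q324.SC.cnt (fun k => δ (((a.1.1.1, a.1.1.2), node a.2.1.1 a.1.2 k), a.2.1.2))
        (2 ^ a.1.2) := Primrec.nat_mul.to_comp.comp (Computable.const 2) h5
  exact Primrec.or.to_comp.comp h1 (le_dec_comp h2 h6)

/-- few exceptions are not the majority -/
lemma ok_spec {δ : ((ℕ × ℕ) × ℕ) × ℕ → Bool} (hmono : ∀ x s s', s ≤ s' → δ (x, s) = true →
      δ (x, s') = true) {N b l x n : ℕ} (hx : x % 2 = 1) (h3 : x % 3 ≠ 0) (hxn : Rc x ↔ Rc n)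
    (h22 : 22 ^ l * x ≤ N) (h32 : 32 * N < 32 ^ l)
    (hE : {m | 0 < m ∧ m ≤ N ∧ ((∃ s, δ (((N, b), m), s) = true) ↔ Rc m)}.ncard ^ 5 ≤ N) :
    (∃ s₀, ∀ s ≥ s₀, ok δ N b l x s n = true) ∧
    (Rc n → ∀ s, ok δ N b l x s n = true → gg (co^[s] n) = true) := by
  classical
  let E := {m | 0 < m ∧ m ≤ N ∧ ((∃ s, δ (((N, b), m), s) = true) ↔ Rc m)}
  have hfin : E.Finite := (Set.finite_le_nat N).subset fun m hm => hm.2.1
  let Bd := (Finset.range (2 ^ l)).filter fun k =>
    ((∃ s, δ (((N, b), node x l k), s) = true) ↔ Rc (node x l k))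
  have h1 : Bd.card ≤ E.ncard := by
    rw [← Set.ncard_coe_finset]
    refine Set.ncard_le_ncard_of_injOn (fun k => node x l k) ?_ ?_ hfin
    · intro k hk
      rw [Finset.mem_coe, Finset.mem_filter] at hk
      obtain ⟨a1, a2, a3, _⟩ := node_spec hx h3 l k
      exact ⟨by omega, a3.trans h22, hk.2⟩
    · intro k hk k' hk' h
      rw [Finset.mem_coe, Finset.mem_filter, Finset.mem_range] at hk hk'
      have := node_inj hx h3 l k k' h
      rwa [Nat.mod_eq_of_lt hk.1, Nat.mod_eq_of_lt hk'.1] at this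
  have h2 : 2 * Bd.card < 2 ^ l := by
    have h4 : (2 * E.ncard) ^ 5 < (2 ^ l) ^ 5 := by
      calc (2 * E.ncard) ^ 5 = 32 * E.ncard ^ 5 := by ring
        _ ≤ 32 * N := Nat.mul_le_mul_left _ hE
        _ < 32 ^ l := h32
        _ = (2 ^ l) ^ 5 := by
          rw [← pow_mul, mul_comm, pow_mul]
          norm_num
    have h5 := lt_of_pow_lt_pow_left₀ 5 (Nat.zero_le _) h4
    omega
  have h3' := Finset.card_filter_add_card_filter_not (s := Finset.range (2 ^ l)) (fun k =>
    ((∃ s, δ (((N, b), node x l k), s) = true) ↔ Rc (node x l k)))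
  rw [Finset.card_range] at h3'
  change Bd.card + _ = _ at h3'
  have hRc : ∀ k, Rc (node x l k) ↔ Rc n := fun k => (node_spec hx h3 l k).2.2.2.trans hxn
  constructor
  · by_cases hn : Rc n
    · obtain ⟨k, hk⟩ := hn
      refine ⟨k, fun s hs => ?_⟩
      unfold ok
      rw [g_mono gg_inv hs hk]
      rfl
    · -- the right answers appear
      have h4 : ∀ k, ∃ s, (∃ s, δ (((N, b), node x l k), s) = true) →
          δ (((N, b), node x l k), s) = true := by
        intro k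
        by_cases hk : ∃ s, δ (((N, b), node x l k), s) = true
        · obtain ⟨s, hs⟩ := hk
          exact ⟨s, fun _ => hs⟩
        · exact ⟨0, fun h => absurd h hk⟩
      choose S hS using h4
      refine ⟨(Finset.range (2 ^ l)).sup S, fun s hs => ?_⟩
      unfold ok
      rw [Bool.or_eq_true]
      right
      rw [decide_eq_true_eq, Pool.Agent.Q324.SC.cnt_eq]
      have h5 : (Finset.range (2 ^ l)).filter (fun k =>
          ¬ ((∃ s, δ (((N, b), node x l k), s) = true) ↔ Rc (node x l k))) ⊆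
          (Finset.range (2 ^ l)).filter fun k => δ (((N, b), node x l k), s) = true := by
        intro k hk
        rw [Finset.mem_filter] at hk ⊢
        refine ⟨hk.1, ?_⟩
        have h6 : ∃ s, δ (((N, b), node x l k), s) = true := by
          by_contra h7
          refine hk.2 ⟨fun h => absurd h h7, fun h => absurd ((hRc k).1 h) hn⟩
        exact hmono _ _ _ ((Finset.le_sup hk.1).trans hs) (hS k h6)
      have h6 := Finset.card_le_card h5
      omega
  · intro hn s hs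
    unfold ok at hs
    rw [Bool.or_eq_true] at hs
    rcases hs with hs | hs
    · exact hs
    · exfalso
      rw [decide_eq_true_eq, Pool.Agent.Q324.SC.cnt_eq] at hs
      have h5 : ((Finset.range (2 ^ l)).filter fun k => δ (((N, b), node x l k), s) = true) ⊆
          Bd := by
        intro k hk
        rw [Finset.mem_filter] at hk ⊢
        exact ⟨hk.1, ⟨fun _ => (hRc k).2 hn, fun _ => ⟨s, hk.2⟩⟩⟩
      have h6 := Finset.card_le_card h5
      omega

end Pool.Agent.H447.TR
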