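import Pool.Agent.H447.TR.Rand

/-!
# Trajectories of a computable map: components without cycles
-/

set_option autoImplicit false

namespace Pool.Agent.H447.TR

open Pool.Agent.H201.AD (exists_computable_find)

lemma iter_comp {f : ℕ → ℕ} (hf : Computable f) : Computable fun x : ℕ × ℕ => f^[x.1] x.2 := by
  have h : Computable fun x : ℕ × ℕ =>
      (Nat.rec (motive := fun _ => ℕ) x.2 (fun _ y => f y) x.1 : ℕ) :=
    Computable.nat_rec (f := fun x : ℕ × ℕ => x.1) (g := fun x => x.2)
      (h := fun _ p => f p.2) Computable.fst Computable.snd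
      (hf.comp (Computable.snd.comp Computable.snd))
  refine h.of_eq fun x => ?_
  obtain ⟨k, y⟩ := x
  simp only
  induction k with
  | zero => rfl
  | succ k ih => rw [Function.iterate_succ_apply', ← ih]

lemma le_dec_comp {α : Type*} [Primcodable α] {a b : α → ℕ} (ha : Computable a)
    (hb : Computable b) : Computable fun x => decide (a x ≤ b x) := by
  have h4 : Primrec (fun y : ℕ × ℕ => decide (y.1 ≤ y.2)) :=
    (show PrimrecPred fun y : ℕ × ℕ => y.1 ≤ y.2 from
      Primrec.nat_le.comp Primrec.fst Primrec.snd).decide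
  exact Computable.comp (f := fun y : ℕ × ℕ => decide (y.1 ≤ y.2)) (g := fun x => (a x, b x))
    h4.to_comp (ha.pair hb)

lemma lt_dec_comp {α : Type*} [Primcodable α] {a b : α → ℕ} (ha : Computable a)
    (hb : Computable b) : Computable fun x => decide (a x < b x) :=
  le_dec_comp (Computable.succ.comp ha) hb

lemma eq_dec_comp {α : Type*} [Primcodable α] {a b : α → ℕ} (ha : Computable a)
    (hb : Computable b) : Computable fun x => decide (a x = b x) := by
  have h4 : Primrec (fun y : ℕ × ℕ => decide (y.1 = y.2)) :=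
    (show PrimrecPred fun y : ℕ × ℕ => y.1 = y.2 from
      Primrec.eq.comp Primrec.fst Primrec.snd).decide
  exact Computable.comp (f := fun y : ℕ × ℕ => decide (y.1 = y.2)) (g := fun x => (a x, b x))
    h4.to_comp (ha.pair hb)

/-- the witness `t` shows that `n` meets a smaller number or an element of `B` or is periodic -/
def W (f : ℕ → ℕ) (β : ℕ × ℕ → Bool) (x : ℕ × ℕ) : Bool :=
  decide (f^[x.2.unpair.2.unpair.1] x.2.unpair.1.unpair.1 = f^[x.2.unpair.2.unpair.2] x.1) &&
    (decide (x.2.unpair.1.unpair.1 < x.1) ||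
      ((decide (x.2.unpair.1.unpair.1 = x.1) &&
        decide (x.2.unpair.2.unpair.2 < x.2.unpair.2.unpair.1)) ||
      β (x.2.unpair.1.unpair.1, x.2.unpair.1.unpair.2)))

attribute [local irreducible] Nat.unpair Nat.pair in
lemma W_comp {f : ℕ → ℕ} (hf : Computable f) {β : ℕ × ℕ → Bool} (hβ : Computable β) :
    Computable (W f β) := by
  have u1 : Computable fun x : ℕ × ℕ => x.2.unpair.1.unpair.1 :=
    Computable.fst.comp (Computable.unpair.comp (Computable.fst.comp
      (Computable.unpair.comp Computable.snd)))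
  have u2 : Computable fun x : ℕ × ℕ => x.2.unpair.1.unpair.2 :=
    Computable.snd.comp (Computable.unpair.comp (Computable.fst.comp
      (Computable.unpair.comp Computable.snd)))
  have u3 : Computable fun x : ℕ × ℕ => x.2.unpair.2.unpair.1 :=
    Computable.fst.comp (Computable.unpair.comp (Computable.snd.comp
      (Computable.unpair.comp Computable.snd)))
  have u4 : Computable fun x : ℕ × ℕ => x.2.unpair.2.unpair.2 :=
    Computable.snd.comp (Computable.unpair.comp (Computable.snd.comp
      (Computable.unpair.comp Computable.snd)))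
  have h1 := eq_dec_comp ((iter_comp hf).comp (u3.pair u1)) ((iter_comp hf).comp (u4.pair Computable.fst))
  have h2 := lt_dec_comp u1 (Computable.fst (α := ℕ) (β := ℕ))
  have h3 := eq_dec_comp u1 (Computable.fst (α := ℕ) (β := ℕ))
  have h4 := lt_dec_comp u4 u3
  have h5 := hβ.comp (u1.pair u2)
  exact Primrec.and.to_comp.comp h1 (Primrec.or.to_comp.comp h2 (Primrec.or.to_comp.comp
    (Primrec.and.to_comp.comp h3 h4) h5))

/-- a witness is found before `s` -/
def seen (f : ℕ → ℕ) (β : ℕ × ℕ → Bool) (s n : ℕ) : Bool :=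
  decide (0 < Pool.Agent.Q324.SC.cnt (fun t => W f β (n, t)) s)

lemma seen_iff {f : ℕ → ℕ} {β : ℕ × ℕ → Bool} {s n : ℕ} :
    seen f β s n = true ↔ ∃ t < s, W f β (n, t) = true := by
  unfold seen
  rw [decide_eq_true_eq, Pool.Agent.Q324.SC.cnt_eq, Finset.card_pos]
  constructor
  · rintro ⟨t, ht⟩
    rw [Finset.mem_filter, Finset.mem_range] at ht
    exact ⟨t, ht⟩
  · rintro ⟨t, ht⟩
    exact ⟨t, by rw [Finset.mem_filter, Finset.mem_range]; exact ht⟩

attribute [local irreducible] W Pool.Agent.Q324.SC.cnt in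
lemma seen_comp {f : ℕ → ℕ} (hf : Computable f) {β : ℕ × ℕ → Bool} (hβ : Computable β) :
    Computable fun x : ℕ × ℕ => seen f β x.1 x.2 := by
  have h0 : Computable fun y : (ℕ × ℕ) × ℕ => W f β (y.1.2, y.2) :=
    (W_comp hf hβ).comp ((Computable.snd.comp Computable.fst).pair Computable.snd)
  have h1 : Computable fun x : ℕ × ℕ =>
      Pool.Agent.Q324.SC.cnt (fun t => W f β (x.2, t)) x.1 :=
    Pool.Agent.Q324.SC.cnt_comp (f := fun (x : ℕ × ℕ) t => W f β (x.2, t))
      (m := fun x : ℕ × ℕ => x.1) h0 Computable.fst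
  have h2 : Computable fun x : ℕ × ℕ =>
      decide (0 < Pool.Agent.Q324.SC.cnt (fun t => W f β (x.2, t)) x.1) :=
    lt_dec_comp (a := fun _ => 0) (Computable.const 0) h1
  exact h2

/-- the number of the `n ≤ N` without a witness before `s` -/
def un (f : ℕ → ℕ) (β : ℕ × ℕ → Bool) (N s : ℕ) : ℕ :=
  Pool.Agent.Q324.SC.cnt (fun n => !(seen f β s n)) (N + 1)

attribute [local irreducible] seen Pool.Agent.Q324.SC.cnt in
lemma un_comp {f : ℕ → ℕ} (hf : Computable f) {β : ℕ × ℕ → Bool} (hβ : Computable β) :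
    Computable fun x : ℕ × ℕ => un f β x.1 x.2 := by
  have h00 : Computable fun y : (ℕ × ℕ) × ℕ => seen f β y.1.2 y.2 :=
    Computable.comp (f := fun x : ℕ × ℕ => seen f β x.1 x.2)
      (g := fun y : (ℕ × ℕ) × ℕ => (y.1.2, y.2)) (seen_comp hf hβ)
      ((Computable.snd.comp Computable.fst).pair Computable.snd)
  have h0 : Computable fun y : (ℕ × ℕ) × ℕ => !(seen f β y.1.2 y.2) :=
    Primrec.not.to_comp.comp h00
  exact Pool.Agent.Q324.SC.cnt_comp (f := fun (x : ℕ × ℕ) n => !(seen f β x.2 n))
    (m := fun x : ℕ × ℕ => x.1 + 1) h0 (Computable.succ.comp Computable.fst)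

/-- the numbers without a witness -/
def Ld (f : ℕ → ℕ) (β : ℕ × ℕ → Bool) : Set ℕ := {n | ∀ t, W f β (n, t) = false}

lemma un_spec (f : ℕ → ℕ) (β : ℕ × ℕ → Bool) (N : ℕ) :
    (∃ s, un f β N s ≤ {n | n ≤ N ∧ n ∈ Ld f β}.ncard) ∧
    ∀ s, un f β N s ≤ {n | n ≤ N ∧ n ∈ Ld f β}.ncard →
      ∀ n ≤ N, n ∉ Ld f β → ∃ t < s, W f β (n, t) = true := by
  classical
  have h1 : {n | n ≤ N ∧ n ∈ Ld f β}.ncard =
      ((Finset.range (N + 1)).filter fun n => n ∈ Ld f β).card := by
    rw [← Set.ncard_coe_finset]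
    refine congrArg Set.ncard ?_
    ext n
    simp only [Finset.coe_filter, Finset.mem_range, Nat.lt_succ_iff]
  have h2 : ∀ s, un f β N s =
      ((Finset.range (N + 1)).filter fun n => (!(seen f β s n)) = true).card :=
    fun s => Pool.Agent.Q324.SC.cnt_eq _ _
  have h3 : ∀ s, ((Finset.range (N + 1)).filter fun n => n ∈ Ld f β) ⊆
      (Finset.range (N + 1)).filter fun n => (!(seen f β s n)) = true := by
    intro s n hn
    rw [Finset.mem_filter] at hn ⊢
    refine ⟨hn.1, ?_⟩
    have h4 : seen f β s n = false := by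
      rw [← Bool.not_eq_true, seen_iff]
      rintro ⟨t, _, ht⟩
      rw [hn.2 t] at ht
      exact Bool.false_ne_true ht
    rw [h4]
    rfl
  refine ⟨?_, ?_⟩
  · have h4 : ∀ n, ∃ t, n ∉ Ld f β → W f β (n, t) = true := by
      intro n
      by_cases hn : n ∈ Ld f β
      · exact ⟨0, fun h => absurd hn h⟩
      · have h5 : ∃ t, W f β (n, t) ≠ false := by
          by_contra hcon
          push Not at hcon
          exact hn hcon
        obtain ⟨t, ht⟩ := h5
        exact ⟨t, fun _ => by simpa using ht⟩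
    choose T hT using h4
    refine ⟨(Finset.range (N + 1)).sup T + 1, ?_⟩
    rw [h1, h2]
    refine Finset.card_le_card fun n hn => ?_
    rw [Finset.mem_filter] at hn ⊢
    refine ⟨hn.1, ?_⟩
    by_contra h5
    have h6 : seen f β ((Finset.range (N + 1)).sup T + 1) n = true :=
      seen_iff.2 ⟨T n, Nat.lt_succ_of_le (Finset.le_sup hn.1), hT n h5⟩
    rw [h6] at hn
    simp at hn
  · intro s hs n hn hn2
    rw [h1, h2] at hs
    have h4 := Finset.eq_of_subset_of_card_le (h3 s) hs
    rw [← seen_iff]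
    by_contra h5
    have h6 : n ∈ (Finset.range (N + 1)).filter fun n => (!(seen f β s n)) = true := by
      rw [Finset.mem_filter, Finset.mem_range]
      refine ⟨by omega, ?_⟩
      rw [Bool.not_eq_true] at h5
      rw [h5]
      rfl
    rw [← h4, Finset.mem_filter] at h6
    exact hn2 h6.2

lemma g_mono {f : ℕ → ℕ} {g : ℕ → Bool} (hinv : ∀ x, g x = true → g (f x) = true) {x a b : ℕ}
    (h : a ≤ b) (ha : g (f^[a] x) = true) : g (f^[b] x) = true := by
  induction b, h using Nat.le_induction with
  | base => exact ha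
  | succ b _ ih =>
    rw [Function.iterate_succ_apply']
    exact hinv _ ih

/-- a bound for the time -/
lemma time_bound {f : ℕ → ℕ} {g : ℕ → Bool} (hinv : ∀ x, g x = true → g (f x) = true)
    {β : ℕ × ℕ → Bool} (hB : ∀ m u, β (m, u) = true → ∀ k, g (f^[k] m) = false) {N s : ℕ}
    (hs : ∀ n ≤ N, (∃ k, g (f^[k] n) = true) → ∃ t < s, W f β (n, t) = true) :
    ∀ n ≤ N, (∃ k, g (f^[k] n) = true) → g (f^[s * (n + 1)] n) = true := by
  intro n
  induction n using Nat.strong_induction_on with
  | _ n ih =>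
    intro hn hk
    obtain ⟨t, ht, ht2⟩ := hs n hn hk
    obtain ⟨k, hk⟩ := hk
    unfold W at ht2
    simp only [Bool.and_eq_true, Bool.or_eq_true, decide_eq_true_eq] at ht2
    have b1 : t.unpair.2 ≤ t := Nat.unpair_right_le t
    have b2 : t.unpair.2.unpair.1 ≤ t.unpair.2 := Nat.unpair_left_le _
    have b3 : t.unpair.2.unpair.2 ≤ t.unpair.2 := Nat.unpair_right_le _
    generalize t.unpair.2.unpair.1 = i at *
    generalize t.unpair.2.unpair.2 = j at *
    generalize t.unpair.1.unpair.1 = m at *
    generalize t.unpair.1.unpair.2 = u at *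
    obtain ⟨h1, h2⟩ := ht2
    -- the trajectory of `m` reaches the end
    have h3 : g (f^[k + i] m) = true := by
      rw [Function.iterate_add_apply, h1, ← Function.iterate_add_apply]
      exact g_mono hinv (by omega) hk
    rcases h2 with h2 | ⟨h2, h4⟩ | h2
    · have h5 := ih m h2 (by omega) ⟨_, h3⟩
      have h6 : g (f^[s * (m + 1) + i] m) = true := g_mono hinv (by omega) h5
      rw [Function.iterate_add_apply, h1, ← Function.iterate_add_apply] at h6
      refine g_mono hinv ?_ h6
      have h7 : s * (m + 1) + s ≤ s * (n + 1) := by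
        have : s * (m + 1) + s = s * (m + 1 + 1) := by ring
        rw [this]
        exact Nat.mul_le_mul_left _ (by omega)
      omega
    · subst h2
      -- periodic
      have h5 : ∀ r, f^[j + r * (i - j)] m = f^[j] m := by
        intro r
        induction r with
        | zero => simp
        | succ r ihr =>
          have e1 : j + (r + 1) * (i - j) = r * (i - j) + i := by
            rw [add_mul, one_mul]
            omega
          rw [e1, Function.iterate_add_apply, h1, ← Function.iterate_add_apply, add_comm]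
          exact ihr
      have h6 : g (f^[j + k * (i - j)] m) = true := by
        refine g_mono hinv ?_ hk
        have : k * 1 ≤ k * (i - j) := Nat.mul_le_mul_left _ (by omega)
        omega
      rw [h5] at h6
      refine g_mono hinv ?_ h6
      have h7 : s * 1 ≤ s * (m + 1) := Nat.mul_le_mul_left _ (by omega)
      omega
    · have h5 := hB m u h2 (k + i)
      rw [h5] at h3
      exact absurd h3 Bool.false_ne_true

attribute [local irreducible] Nat.unpair Nat.pair un in
/-- **The number of the components without cycles as advice.** -/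
theorem core {f : ℕ → ℕ} (hf : Computable f) {g : ℕ → Bool}
    (hinv : ∀ x, g x = true → g (f x) = true)
    (hper : ∀ n k, g (f^[k] n) = true → ∃ i j, j < i ∧ f^[i] n = f^[j] n)
    {β : ℕ × ℕ → Bool} (hβ : Computable β) (hB : ∀ m u, β (m, u) = true → ∀ k, g (f^[k] m) = false)
    (q : ℕ) {M : ℕ → ℕ} (hM : Computable M) {F : ℕ × ℕ →. ℕ} (hF : Partrec F)
    {r : ℕ → Bool} (hr : Computable r) (hinf : ∀ B, ∃ N ≥ B, r N = true)
    (h : ∀ N, r N = true → 0 < M N ∧
      M N ≤ q * {b | b < M N ∧ {n | n ≤ N ∧ n ∈ Ld f β}.ncard ∈ F (N, b)}.ncard) :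
    ∃ C : ℕ → ℕ, Computable C ∧ ∀ n, (∃ k, g (f^[k] n) = true) → g (f^[C n] n) = true := by
  classical
  -- the stages
  obtain ⟨σ, hσ, hσ2⟩ := exists_computable_find (p := fun j N => decide (j ≤ N) && r N)
    (Primrec.and.to_comp.comp (le_dec_comp Computable.fst Computable.snd)
      (hr.comp Computable.snd)) fun j => by
      obtain ⟨N, h1, h2⟩ := hinf j
      exact ⟨N, by rw [h2, decide_eq_true h1]; rfl⟩
  have hσ3 : ∀ j, j ≤ σ j ∧ r (σ j) = true := by
    intro j
    have := hσ2 j
    simp only [Bool.and_eq_true, decide_eq_true_eq] at this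
    exact this
  -- the guesses
  have hp : Computable₂ fun (x : (ℕ × ℕ) × ℕ) (s : ℕ) => decide (un f β (σ x.1.1) s ≤ x.2) :=
    le_dec_comp ((un_comp hf hβ).comp ((hσ.comp (Computable.fst.comp (Computable.fst.comp
      Computable.fst))).pair Computable.snd)) (Computable.snd.comp Computable.fst)
  have h1 : Partrec fun x : (ℕ × ℕ) × ℕ =>
      Nat.rfind fun s => Part.some (decide (un f β (σ x.1.1) s ≤ x.2)) :=
    Partrec.rfind hp.partrec₂
  have h2 : Partrec₂ fun (x : (ℕ × ℕ) × ℕ) (s : ℕ) =>
      (Part.some (s * (σ x.1.1 + 1)) : Part ℕ) := by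
    have h3 : Computable fun y : ((ℕ × ℕ) × ℕ) × ℕ => y.2 * (σ y.1.1.1 + 1) :=
      Primrec.nat_mul.to_comp.comp Computable.snd (Computable.succ.comp (hσ.comp
        (Computable.fst.comp (Computable.fst.comp Computable.fst))))
    exact h3.partrec
  have h4 : Partrec fun a : ℕ × ℕ => F (σ a.1, a.2) :=
    hF.comp ((hσ.comp Computable.fst).pair Computable.snd)
  have hF' := h4.bind (g := fun (a : ℕ × ℕ) (d : ℕ) =>
    (Nat.rfind fun s => Part.some (decide (un f β (σ a.1) s ≤ d))).bind fun s =>
      Part.some (s * (σ a.1 + 1))) (h1.bind h2)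
  obtain ⟨C, hC, hC2⟩ := bounded_of_random hF' q (M := fun j => M (σ j)) (hM.comp hσ)
    (fun N c => ∀ n ≤ N, (∃ k, g (f^[k] n) = true) → g (f^[c] n) = true)
    (fun i c c' hc hP n hn hk => g_mono hinv hc (hP n hn hk))
    (fun i j c hij hP n hn hk => hP n (hn.trans hij) hk) fun j => by
      obtain ⟨g1, g2⟩ := hσ3 j
      obtain ⟨g3, g4⟩ := h (σ j) g2
      refine ⟨g3, g4.trans (Nat.mul_le_mul_left q (Set.ncard_le_ncard ?_ ?_))⟩
      · rintro b ⟨hb, hb2⟩
        obtain ⟨⟨s₀, hs₀⟩, k2⟩ := un_spec f β (σ j)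
        have k3 : (Nat.rfind fun s => Part.some (decide (un f β (σ j) s ≤
            {n | n ≤ σ j ∧ n ∈ Ld f β}.ncard))).Dom :=
          Nat.rfind_dom.mpr ⟨s₀, by rw [decide_eq_true hs₀]; exact Part.mem_some _, fun _ => trivial⟩
        have k4 := Part.get_mem k3
        generalize (Nat.rfind fun s => Part.some (decide (un f β (σ j) s ≤
            {n | n ≤ σ j ∧ n ∈ Ld f β}.ncard))).get k3 = s at k4
        have k5 : un f β (σ j) s ≤ {n | n ≤ σ j ∧ n ∈ Ld f β}.ncard := by
          have := Nat.rfind_spec k4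
          simpa using this
        refine ⟨hb, s * (σ j + 1), ?_, ?_⟩
        · exact Part.mem_bind hb2 (Part.mem_bind k4 (Part.mem_some _))
        · intro n hn hk
          have k6 := time_bound hinv hB (N := σ j) (s := s) (fun n hn hk => k2 s k5 n hn ?_) n
            (hn.trans g1) hk
          · refine g_mono hinv (Nat.mul_le_mul_left _ ?_) k6
            omega
          · intro hL
            obtain ⟨k, hk⟩ := hk
            obtain ⟨i, i', hi, hi2⟩ := hper n k hk
            have k7 := hL (Nat.pair (Nat.pair n 0) (Nat.pair i i'))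
            unfold W at k7
            simp only [Nat.unpair_pair] at k7
            rw [decide_eq_true hi2, decide_eq_true hi] at k7
            simp at k7
      · exact (Set.finite_lt_nat (M (σ j))).subset fun b hb => hb.1
  exact ⟨C, hC, fun n hk => hC2 n n le_rfl hk⟩

end Pool.Agent.H447.TR
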