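import Pool.Agent.H447.TR.Tag

/-!
# Components without cycles as advice: reachability for an arbitrary computable map
-/

set_option autoImplicit false

namespace Pool.Agent.H447.TR

open Encodable
open Pool.Agent.H201.AD (exists_computable_find)

/-- nothing is enumerated -/
def no (_ : ℕ × ℕ) : Bool := false

lemma it_eq {f : ℕ → ℕ} {a b i j : ℕ} (h : f^[i] a = f^[j] b) (x : ℕ) :
    f^[x + i] a = f^[x + j] b := by
  rw [Function.iterate_add_apply, h, ← Function.iterate_add_apply]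

lemma chain {f : ℕ → ℕ} {N s : ℕ} (hs : ∀ n ≤ N, n ∉ Ld f no → ∃ t < s, W f no (n, t) = true) :
    ∀ n ≤ N, ∃ n0 i j, i ≤ s * (n + 1) ∧ j ≤ s * (n + 1) ∧ f^[i] n = f^[j] n0 ∧
      (n0 ∈ Ld f no ∨ ∃ i0 j0, j0 < i0 ∧ i0 ≤ s ∧ f^[i0] n0 = f^[j0] n0) := by
  intro n
  induction n using Nat.strong_induction_on with
  | _ n ih =>
    intro hn
    by_cases hL : n ∈ Ld f no
    · exact ⟨n, 0, 0, Nat.zero_le _, Nat.zero_le _, rfl, Or.inl hL⟩
    · obtain ⟨t, ht, ht2⟩ := hs n hn hL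
      unfold W no at ht2
      simp only [Bool.and_eq_true, Bool.or_eq_true, decide_eq_true_eq, Bool.false_eq_true,
        or_false] at ht2
      have b1 : t.unpair.2 ≤ t := Nat.unpair_right_le t
      have b2 : t.unpair.2.unpair.1 ≤ t.unpair.2 := Nat.unpair_left_le _
      have b3 : t.unpair.2.unpair.2 ≤ t.unpair.2 := Nat.unpair_right_le _
      generalize t.unpair.2.unpair.1 = i1 at *
      generalize t.unpair.2.unpair.2 = j1 at *
      generalize t.unpair.1.unpair.1 = m at *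
      obtain ⟨h1, h2⟩ := ht2
      rcases h2 with h2 | ⟨h2, h4⟩
      · obtain ⟨n0, i, j, g1, g2, g3, g4⟩ := ih m h2 (by omega)
        have h7 : s * (m + 1) + s ≤ s * (n + 1) := by
          have : s * (m + 1) + s = s * (m + 1 + 1) := by ring
          rw [this]
          exact Nat.mul_le_mul_left _ (by omega)
        refine ⟨n0, i + j1, i1 + j, by omega, by omega, ?_, g4⟩
        have e1 := it_eq h1 i
        have e2 := it_eq g3 i1
        rw [← e1, ← e2, add_comm i i1]
      · subst h2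
        exact ⟨m, 0, 0, Nat.zero_le _, Nat.zero_le _, rfl, Or.inr ⟨i1, j1, h4, by omega, h1⟩⟩

lemma ded_bound {f : ℕ → ℕ} {N s : ℕ}
    (hs : ∀ n ≤ N, n ∉ Ld f no → ∃ t < s, W f no (n, t) = true) {a b : ℕ} (ha : a ≤ N)
    (hb : b ≤ N) (h : ∃ k, 1 ≤ k ∧ f^[k] a = b) :
    ∃ k ≤ 2 * (s * (N + 1)), 1 ≤ k ∧ f^[k] a = b := by
  classical
  obtain ⟨n0, i, j, g1, g2, g3, g4⟩ := chain hs a ha
  have e1 : s * (a + 1) ≤ s * (N + 1) := Nat.mul_le_mul_left _ (by omega)
  have e2 : s * (b + 1) ≤ s * (N + 1) := Nat.mul_le_mul_left _ (by omega)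
  have e3 : s * 1 ≤ s * (N + 1) := Nat.mul_le_mul_left _ (by omega)
  obtain ⟨k, hk⟩ : ∃ k, k = Nat.find h := ⟨_, rfl⟩
  obtain ⟨hk1, hk2⟩ := Nat.find_spec h
  have hmin : ∀ k' < k, ¬ (1 ≤ k' ∧ f^[k'] a = b) := fun k' hk' => Nat.find_min h (hk ▸ hk')
  rw [← hk] at hk1 hk2
  refine ⟨k, ?_, hk1, hk2⟩
  rcases g4 with g4 | ⟨i0, j0, k1, k2, k3⟩
  · obtain ⟨m1, m2, m3⟩ := (mem_LdG f no n0).1 g4
    obtain ⟨n1, i', j', p1, p2, p3, p4⟩ := chain hs b hb
    -- f^[x + i] a = f^[x + j] n0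
    rcases p4 with p4 | ⟨i0, j0, k1, k2, k3⟩
    · obtain ⟨r1, r2, r3⟩ := (mem_LdG f no n1).1 p4
      have q1 : f^[i' + k + j] n0 = f^[i + j'] n1 := by
        have c1 := it_eq g3 (i' + k)
        have c2 := it_eq p3 i
        rw [← c1, ← c2, ← hk2, ← Function.iterate_add_apply]
        rw [show i' + k + i = i + i' + k by omega]
      have q2 : n0 = n1 := by
        rcases lt_trichotomy n0 n1 with h1 | h1 | h1
        · exact absurd ⟨_, _, q1⟩ (r3 n0 h1)
        · exact h1
        · exact absurd ⟨_, _, q1.symm⟩ (m3 n1 h1)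
      rw [q2] at q1
      have q3 : i' + k + j = i + j' := by
        rcases lt_trichotomy (i' + k + j) (i + j') with h1 | h1 | h1
        · exact absurd ⟨_, _, h1, q1.symm⟩ r1
        · exact h1
        · exact absurd ⟨_, _, h1, q1⟩ r1
      omega
    · exfalso
      apply m1
      have c1 : f^[j' + i0] n1 = f^[j' + j0] n1 := it_eq k3 j'
      have c2 : f^[i0 + i'] b = f^[j0 + i'] b := by
        rw [it_eq p3 i0, it_eq p3 j0, add_comm i0 j', add_comm j0 j', c1]
      have c3 : f^[i + (i0 + i' + k)] a = f^[i + (j0 + i' + k)] a := by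
        refine it_eq ?_ i
        rw [Function.iterate_add_apply, Function.iterate_add_apply f (j0 + i') k, hk2, c2]
      have c4 := it_eq g3 (i0 + i' + k)
      have c5 := it_eq g3 (j0 + i' + k)
      rw [add_comm] at c3
      rw [add_comm i (j0 + i' + k)] at c3
      refine ⟨i0 + i' + k + j, j0 + i' + k + j, by omega, ?_⟩
      rw [← c4, ← c5, c3]
  · by_contra hlt
    -- a shorter time
    have c1 : f^[k - (i0 - j0)] a = f^[k] a := by
      have d1 := it_eq g3 (k - i)
      have d2 := it_eq g3 (k - (i0 - j0) - i)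
      have d3 := it_eq k3 (k - i + j - i0)
      rw [Nat.sub_add_cancel (by omega)] at d1 d2
      have d4 : k - i + j = k - i + j - i0 + i0 := by omega
      have d5 : k - (i0 - j0) - i + j = k - i + j - i0 + j0 := by omega
      rw [d2, d5, ← d3, ← d4, ← d1]
    exact hmin (k - (i0 - j0)) (by omega) ⟨by omega, by rw [c1]; exact hk2⟩

attribute [local irreducible] Nat.unpair Nat.pair un in
/-- **The number of the components without cycles as advice for reachability.** -/
theorem core_ded {f : ℕ → ℕ} (hf : Computable f) (q : ℕ) {M : ℕ → ℕ} (hM : Computable M)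
    {F : ℕ × ℕ →. ℕ} (hF : Partrec F) {r : ℕ → Bool} (hr : Computable r)
    (hinf : ∀ B, ∃ N ≥ B, r N = true)
    (h : ∀ N, r N = true → 0 < M N ∧
      M N ≤ q * {b | b < M N ∧ {n | n ≤ N ∧ n ∈ Ld f no}.ncard ∈ F (N, b)}.ncard) :
    ∃ C : ℕ → ℕ, Computable C ∧ ∀ N, ∀ a ≤ N, ∀ b ≤ N, (∃ k, 1 ≤ k ∧ f^[k] a = b) →
      ∃ k ≤ C N, 1 ≤ k ∧ f^[k] a = b := by
  classical
  have hβ : Computable no := Computable.const false
  obtain ⟨σ, hσ, hσ2⟩ := exists_computable_find (p := fun j N => decide (j ≤ N) && r N)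
    (Primrec.and.to_comp.comp (le_dec_comp Computable.fst Computable.snd)
      (hr.comp Computable.snd)) fun j => by
      obtain ⟨N, h1, h2⟩ := hinf j
      exact ⟨N, by rw [h2, decide_eq_true h1]; rfl⟩
  have hσ3 : ∀ j, j ≤ σ j ∧ r (σ j) = true := by
    intro j
    have := hσ2 j
    simp only [Bool.and_eq_true, decide_eq_true_eq] at this
    exact this
  have hp : Computable₂ fun (x : (ℕ × ℕ) × ℕ) (s : ℕ) => decide (un f no (σ x.1.1) s ≤ x.2) :=
    le_dec_comp ((un_comp hf hβ).comp ((hσ.comp (Computable.fst.comp (Computable.fst.comp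
      Computable.fst))).pair Computable.snd)) (Computable.snd.comp Computable.fst)
  have h1 : Partrec fun x : (ℕ × ℕ) × ℕ =>
      Nat.rfind fun s => Part.some (decide (un f no (σ x.1.1) s ≤ x.2)) :=
    Partrec.rfind hp.partrec₂
  have h2 : Partrec₂ fun (x : (ℕ × ℕ) × ℕ) (s : ℕ) =>
      (Part.some (2 * (s * (σ x.1.1 + 1))) : Part ℕ) := by
    have h3 : Computable fun y : ((ℕ × ℕ) × ℕ) × ℕ => 2 * (y.2 * (σ y.1.1.1 + 1)) :=
      Primrec.nat_mul.to_comp.comp (Computable.const 2)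
        (Primrec.nat_mul.to_comp.comp Computable.snd (Computable.succ.comp (hσ.comp
        (Computable.fst.comp (Computable.fst.comp Computable.fst)))))
    exact h3.partrec
  have h4 : Partrec fun a : ℕ × ℕ => F (σ a.1, a.2) :=
    hF.comp ((hσ.comp Computable.fst).pair Computable.snd)
  have hF' := h4.bind (g := fun (a : ℕ × ℕ) (d : ℕ) =>
    (Nat.rfind fun s => Part.some (decide (un f no (σ a.1) s ≤ d))).bind fun s =>
      Part.some (2 * (s * (σ a.1 + 1)))) (h1.bind h2)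
  obtain ⟨C, hC, hC2⟩ := bounded_of_random hF' q (M := fun j => M (σ j)) (hM.comp hσ)
    (fun N c => ∀ a ≤ N, ∀ b ≤ N, (∃ k, 1 ≤ k ∧ f^[k] a = b) → ∃ k ≤ c, 1 ≤ k ∧ f^[k] a = b)
    (fun i c c' hc hP a ha b hb hk => by
      obtain ⟨k, h1, h2⟩ := hP a ha b hb hk
      exact ⟨k, h1.trans hc, h2⟩)
    (fun i j c hij hP a ha b hb hk => hP a (ha.trans hij) b (hb.trans hij) hk) fun j => by
      obtain ⟨g1, g2⟩ := hσ3 j
      obtain ⟨g3, g4⟩ := h (σ j) g2
      refine ⟨g3, g4.trans (Nat.mul_le_mul_left q (Set.ncard_le_ncard ?_ ?_))⟩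
      · rintro b ⟨hb, hb2⟩
        obtain ⟨⟨s₀, hs₀⟩, k2⟩ := un_spec f no (σ j)
        have k3 : (Nat.rfind fun s => Part.some (decide (un f no (σ j) s ≤
            {n | n ≤ σ j ∧ n ∈ Ld f no}.ncard))).Dom :=
          Nat.rfind_dom.mpr ⟨s₀, by rw [decide_eq_true hs₀]; exact Part.mem_some _, fun _ => trivial⟩
        have k4 := Part.get_mem k3
        generalize (Nat.rfind fun s => Part.some (decide (un f no (σ j) s ≤
            {n | n ≤ σ j ∧ n ∈ Ld f no}.ncard))).get k3 = s at k4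
        have k5 : un f no (σ j) s ≤ {n | n ≤ σ j ∧ n ∈ Ld f no}.ncard := by
          have := Nat.rfind_spec k4
          simpa using this
        refine ⟨hb, 2 * (s * (σ j + 1)), ?_, ?_⟩
        · exact Part.mem_bind hb2 (Part.mem_bind k4 (Part.mem_some _))
        · intro a ha b hb hk
          exact ded_bound (k2 s k5) (ha.trans g1) (hb.trans g1) hk
      · exact (Set.finite_lt_nat (M (σ j))).subset fun b hb => hb.1
  exact ⟨C, hC, fun N => hC2 N⟩

end Pool.Agent.H447.TR
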