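import Pool.Agent.H447.TR.Avg

/-!
# Components without cycles as advice: halting problems for an arbitrary computable map
-/

set_option autoImplicit false

namespace Pool.Agent.H447.TR

open Encodable

variable {α : Type*} [Primcodable α]

/-- the stopped map -/
def stop (T : α → α) (H : α → Bool) (w : α) : α := bif H w then w else T w

/-- the computations meet -/
def MeetG (S : α → α) (u v : α) : Prop := ∃ i j, S^[i] u = S^[j] v

/-- the computation is eventually periodic -/
def PerG (S : α → α) (w : α) : Prop := ∃ i j, j < i ∧ S^[i] w = S^[j] w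

/-- the leader of a component which contains no cycle and no element of `B` -/
def LeaderG (S : α → α) (B : α → Prop) (w : α) : Prop :=
  ¬ PerG S w ∧ (∀ v, B v → ¬ MeetG S v w) ∧ ∀ v, encode v < encode w → ¬ MeetG S v w

/-- the number of the leaders with code at most `N` -/
noncomputable def leadersG (S : α → α) (B : α → Prop) (N : ℕ) : ℕ :=
  {w | encode w ≤ N ∧ LeaderG S B w}.ncard

omit [Primcodable α] in
lemma stop_reach (T : α → α) (H : α → Bool) (w : α) :
    (∃ k, H ((stop T H)^[k] w) = true) ↔ ∃ k, H (T^[k] w) = true := by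
  have h1 : ∀ k, (∀ i < k, H (T^[i] w) = false) → (stop T H)^[k] w = T^[k] w := by
    intro k
    induction k with
    | zero => exact fun _ => rfl
    | succ k ih =>
      intro h
      rw [Function.iterate_succ_apply', Function.iterate_succ_apply',
        ih fun i hi => h i (by omega)]
      unfold stop
      rw [h k (by omega)]
      rfl
  constructor
  · rintro ⟨k, hk⟩
    by_contra hcon
    push Not at hcon
    have h2 := h1 k fun i _ => by
      have := hcon i
      simpa using this
    rw [h2] at hk
    exact hcon k hk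
  · intro h
    classical
    refine ⟨Nat.find h, ?_⟩
    rw [h1 _ fun i hi => by
      have := Nat.find_min h hi
      simpa using this]
    exact Nat.find_spec h

/-- a function on the codes -/
def cod {σ : Type*} (F : α → σ) (d : ℕ → σ) (n : ℕ) : σ :=
  Option.casesOn (decode (α := α) n) (d n) fun w => bif decide (encode w = n) then F w else d n

lemma cod_comp {σ : Type*} [Primcodable σ] {F : α → σ} {d : ℕ → σ} (hF : Computable F)
    (hd : Computable d) : Computable (cod F d) := by
  have h1 : Computable₂ fun (n : ℕ) (w : α) => (bif decide (encode w = n) then F w else d n : σ) := by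
    refine Computable.cond ?_ (hF.comp Computable.snd) (hd.comp Computable.fst)
    exact eq_dec_comp (Computable.encode.comp Computable.snd) Computable.fst
  exact Computable.option_casesOn Computable.decode hd h1

lemma cod_encode {σ : Type*} (F : α → σ) (d : ℕ → σ) (w : α) : cod F d (encode w) = F w := by
  unfold cod
  rw [encodek]
  simp

lemma cod_other {σ : Type*} (F : α → σ) (d : ℕ → σ) {n : ℕ} (h : ∀ w : α, encode w ≠ n) :
    cod F d n = d n := by
  unfold cod
  cases h1 : decode (α := α) n with
  | none => rfl
  | some w => simp [h w]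

lemma cod_iter (S : α → α) (k : ℕ) (w : α) :
    (cod (fun w => encode (S w)) id)^[k] (encode w) = encode (S^[k] w) := by
  induction k with
  | zero => rfl
  | succ k ih =>
    rw [Function.iterate_succ_apply', Function.iterate_succ_apply', ih, cod_encode]

lemma cod_iter_other (S : α → α) (k : ℕ) {n : ℕ} (h : ∀ w : α, encode w ≠ n) :
    (cod (fun w : α => encode (S w)) id)^[k] n = n := by
  induction k with
  | zero => rfl
  | succ k ih =>
    rw [Function.iterate_succ_apply', ih, cod_other _ _ h]
    rfl

lemma mem_LdG (f : ℕ → ℕ) (β : ℕ × ℕ → Bool) (n : ℕ) : n ∈ Ld f β ↔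
    (¬ ∃ i j, j < i ∧ f^[i] n = f^[j] n) ∧
    (∀ m, (∃ u, β (m, u) = true) → ¬ ∃ i j, f^[i] m = f^[j] n) ∧
    ∀ m < n, ¬ ∃ i j, f^[i] m = f^[j] n := by
  constructor
  · intro h
    refine ⟨?_, ?_, ?_⟩
    · rintro ⟨i, j, hi, hij⟩
      have h1 := h (Nat.pair (Nat.pair n 0) (Nat.pair i j))
      unfold W at h1
      simp only [Nat.unpair_pair] at h1
      rw [decide_eq_true hij, decide_eq_true hi] at h1
      simp at h1
    · rintro m ⟨u, hu⟩ ⟨i, j, hij⟩
      have h1 := h (Nat.pair (Nat.pair m u) (Nat.pair i j))
      unfold W at h1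
      simp only [Nat.unpair_pair] at h1
      rw [decide_eq_true hij, hu] at h1
      simp at h1
    · rintro m hm ⟨i, j, hij⟩
      have h1 := h (Nat.pair (Nat.pair m 0) (Nat.pair i j))
      unfold W at h1
      simp only [Nat.unpair_pair] at h1
      rw [decide_eq_true hij, decide_eq_true hm] at h1
      simp at h1
  · rintro ⟨h1, h2, h3⟩ t
    by_contra h4
    rw [Bool.not_eq_false] at h4
    unfold W at h4
    simp only [Bool.and_eq_true, Bool.or_eq_true, decide_eq_true_eq] at h4
    obtain ⟨h5, h6 | ⟨h6, h7⟩ | h6⟩ := h4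
    · exact h3 _ h6 ⟨_, _, h5⟩
    · rw [h6] at h5
      exact h1 ⟨_, _, h7, h5⟩
    · exact h2 _ ⟨_, h6⟩ ⟨_, _, h5⟩

lemma leaders_cod (S : α → α) {B : α → Prop} {β : α × ℕ → Bool}
    (hβ : ∀ v, B v ↔ ∃ u, β (v, u) = true) (N : ℕ) :
    {n | n ≤ N ∧ n ∈ Ld (cod (fun w => encode (S w)) id)
      (fun x => cod (fun v : α => β (v, x.2)) (fun _ => false) x.1)}.ncard = leadersG S B N := by
  unfold leadersG
  rw [← Set.ncard_image_of_injective _ (encode_injective (α := α))]
  refine congrArg Set.ncard ?_
  -- the leaders among the codes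
  have hc : ∀ w : α, encode w ∈ Ld (cod (fun w => encode (S w)) id)
      (fun x => cod (fun v : α => β (v, x.2)) (fun _ => false) x.1) ↔ LeaderG S B w := by
    intro w
    rw [mem_LdG]
    constructor
    · rintro ⟨h1, h2, h3⟩
      refine ⟨?_, ?_, ?_⟩
      · rintro ⟨i, j, hi, hij⟩
        exact h1 ⟨i, j, hi, by rw [cod_iter, cod_iter, hij]⟩
      · rintro v hv ⟨i, j, hij⟩
        obtain ⟨u, hu⟩ := (hβ v).1 hv
        exact h2 (encode v) ⟨u, by simp only [cod_encode]; exact hu⟩
          ⟨i, j, by rw [cod_iter, cod_iter, hij]⟩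
      · rintro v hv ⟨i, j, hij⟩
        exact h3 (encode v) hv ⟨i, j, by rw [cod_iter, cod_iter, hij]⟩
    · rintro ⟨h1, h2, h3⟩
      refine ⟨?_, ?_, ?_⟩
      · rintro ⟨i, j, hi, hij⟩
        rw [cod_iter, cod_iter] at hij
        exact h1 ⟨i, j, hi, encode_injective hij⟩
      · rintro m ⟨u, hu⟩ ⟨i, j, hij⟩
        by_cases hm : ∃ v : α, encode v = m
        · obtain ⟨v, rfl⟩ := hm
          rw [cod_iter, cod_iter] at hij
          simp only [cod_encode] at hu
          exact h2 v ((hβ v).2 ⟨u, hu⟩) ⟨i, j, encode_injective hij⟩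
        · push Not at hm
          simp only [cod_other _ _ hm] at hu
          exact absurd hu Bool.false_ne_true
      · rintro m hm2 ⟨i, j, hij⟩
        by_cases hm : ∃ v : α, encode v = m
        · obtain ⟨v, rfl⟩ := hm
          rw [cod_iter, cod_iter] at hij
          exact h3 v hm2 ⟨i, j, encode_injective hij⟩
        · push Not at hm
          rw [cod_iter, cod_iter_other S i hm] at hij
          exact hm _ hij.symm
  ext n
  constructor
  · rintro ⟨h1, h2⟩
    by_cases hn : ∃ w : α, encode w = n
    · obtain ⟨w, rfl⟩ := hn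
      exact ⟨w, ⟨h1, (hc w).1 h2⟩, rfl⟩
    · push Not at hn
      exfalso
      refine ((mem_LdG _ _ n).1 h2).1 ⟨1, 0, by omega, ?_⟩
      rw [cod_iter_other S 1 hn, cod_iter_other S 0 hn]
  · rintro ⟨w, ⟨h1, h2⟩, rfl⟩
    exact ⟨h1, (hc w).2 h2⟩

lemma exists_enumG {B : α → Prop} (hB : REPred B) :
    ∃ β : α × ℕ → Bool, Computable β ∧ ∀ m, B m ↔ ∃ u, β (m, u) = true := by
  obtain ⟨δ, h1, _, h3⟩ := dom_approx hB
  refine ⟨δ, h1, fun m => ?_⟩
  rw [← h3 m]
  constructor
  · intro h
    exact ⟨h, trivial⟩
  · rintro ⟨h, _⟩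
    exact h

/-- **Halting problems.** -/
theorem gen {T : α → α} (hT : Computable T) {H : α → Bool} (hH : Computable H) {B : α → Prop}
    (hB : REPred B) (hBA : ∀ v, B v → ¬ ∃ k, H (T^[k] v) = true) (q : ℕ) {M : ℕ → ℕ}
    (hM : Computable M) {F : ℕ × ℕ →. ℕ} (hF : Partrec F) {r : ℕ → Bool} (hr : Computable r)
    (hinf : ∀ k, ∃ N ≥ k, r N = true)
    (h : ∀ N, r N = true → 0 < M N ∧
      M N ≤ q * {b | b < M N ∧ leadersG (stop T H) B N ∈ F (N, b)}.ncard) :
    ComputablePred fun w => ∃ k, H (T^[k] w) = true := by
  obtain ⟨β, hβ, hβ2⟩ := exists_enumG hB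
  have hS : Computable (stop T H) := Computable.cond hH Computable.id hT
  have hf : Computable (cod (fun w => encode (stop T H w)) id) :=
    cod_comp (Computable.encode.comp hS) Computable.id
  have hg : Computable (cod H fun _ => false) := cod_comp hH (Computable.const false)
  have hfix : ∀ x : ℕ, cod H (fun _ => false) x = true →
      ∃ w : α, encode w = x ∧ cod (fun w => encode (stop T H w)) id x = x := by
    intro x hx
    by_cases hx2 : ∃ w : α, encode w = x
    · obtain ⟨w, rfl⟩ := hx2
      refine ⟨w, rfl, ?_⟩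
      rw [cod_encode] at hx ⊢
      unfold stop
      rw [hx]
      rfl
    · push Not at hx2
      rw [cod_other _ _ hx2] at hx
      exact absurd hx Bool.false_ne_true
  have hβc : Computable fun x : ℕ × ℕ =>
      cod (fun v : α => β (v, x.2)) (fun _ => false) x.1 := by
    have h1 : Computable₂ fun (x : ℕ × ℕ) (w : α) =>
        (bif decide (encode w = x.1) then β (w, x.2) else false : Bool) := by
      refine Computable.cond ?_ ?_ (Computable.const false)
      · exact eq_dec_comp (Computable.encode.comp Computable.snd)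
          (Computable.fst.comp Computable.fst)
      · exact hβ.comp (Computable.snd.pair (Computable.snd.comp Computable.fst))
    exact Computable.option_casesOn (Computable.decode.comp Computable.fst)
      (Computable.const false) h1
  obtain ⟨C, hC, hC2⟩ := core hf (g := cod H fun _ => false) (fun x hx => by
      obtain ⟨w, _, h2⟩ := hfix x hx
      rw [h2]
      exact hx) (fun n k hk => by
      obtain ⟨w, _, h2⟩ := hfix _ hk
      exact ⟨k + 1, k, by omega, by rw [Function.iterate_succ_apply', h2]⟩)
    hβc (fun m u hu k => by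
      by_cases hm : ∃ v : α, encode v = m
      · obtain ⟨v, rfl⟩ := hm
        simp only [cod_encode] at hu
        rw [cod_iter, cod_encode]
        by_contra h1
        rw [Bool.not_eq_false] at h1
        exact hBA v ((hβ2 v).2 ⟨u, hu⟩) ((stop_reach T H v).1 ⟨k, h1⟩)
      · push Not at hm
        simp only [cod_other _ _ hm] at hu
        exact absurd hu Bool.false_ne_true)
    q hM hF hr hinf (fun N hN => by
      rw [leaders_cod (stop T H) hβ2 N]
      exact h N hN)
  refine ComputablePred.computable_iff.2 ⟨fun w => cod H (fun _ => false)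
    ((cod (fun w => encode (stop T H w)) id)^[C (encode w)] (encode w)), ?_, ?_⟩
  · exact hg.comp (Computable.comp
      (f := fun x : ℕ × ℕ => (cod (fun w : α => encode (stop T H w)) id)^[x.1] x.2)
      (g := fun w : α => (C (encode w), encode w)) (iter_comp hf)
      ((hC.comp Computable.encode).pair Computable.encode))
  · funext w
    rw [eq_iff_iff, ← stop_reach T H w]
    constructor
    · rintro ⟨k, hk⟩
      refine hC2 _ ⟨k, ?_⟩
      rw [cod_iter, cod_encode]
      exact hk
    · intro h1
      refine ⟨C (encode w), ?_⟩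
      have h2 : cod H (fun _ => false)
        ((cod (fun w => encode (stop T H w)) id)^[C (encode w)] (encode w)) = true := h1
      rw [cod_iter, cod_encode] at h2
      exact h2

/-- **Infinitely many components.** -/
theorem gen_infinite {T : α → α} (hT : Computable T) {H : α → Bool} (hH : Computable H)
    {B : α → Prop} (hB : REPred B) (hBA : ∀ v, B v → ¬ ∃ k, H (T^[k] v) = true)
    (hQ : ¬ ComputablePred fun w => ∃ k, H (T^[k] w) = true) :
    {w | LeaderG (stop T H) B w}.Infinite := by
  by_contra hfin
  rw [Set.not_infinite] at hfin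
  refine hQ (gen hT hH hB hBA 1 (M := fun _ => 1)
    (F := fun _ => Part.some {w | LeaderG (stop T H) B w}.ncard)
    (r := fun N => decide (hfin.toFinset.sup encode ≤ N)) (Computable.const 1)
    (Computable.const _).partrec (le_dec_comp (Computable.const _) Computable.id)
    (fun k => ⟨max k (hfin.toFinset.sup encode), le_max_left _ _,
      decide_eq_true (le_max_right _ _)⟩) fun N hN => ⟨Nat.one_pos, ?_⟩)
  have h1 : leadersG (stop T H) B N = {w | LeaderG (stop T H) B w}.ncard := by
    unfold leadersG
    refine congrArg Set.ncard ?_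
    ext n
    constructor
    · rintro ⟨_, h⟩
      exact h
    · intro h
      refine ⟨?_, h⟩
      have h2 : encode n ≤ hfin.toFinset.sup encode := Finset.le_sup (hfin.mem_toFinset.2 h)
      exact h2.trans (of_decide_eq_true hN)
  have h2 : {b | b < 1 ∧ leadersG (stop T H) B N ∈
      (Part.some {w | LeaderG (stop T H) B w}.ncard : Part ℕ)} = {0} := by
    ext b
    constructor
    · rintro ⟨hb, _⟩
      exact Nat.lt_one_iff.1 hb
    · intro hb
      have hb' : b = 0 := hb
      exact ⟨by omega, by rw [h1]; exact Part.mem_some _⟩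
  rw [h2, Set.ncard_singleton]

end Pool.Agent.H447.TR
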