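import Pool.Agent.H447.TR.Gen

/-!
# Halting problems: from most inputs to all inputs
-/

set_option autoImplicit false

namespace Pool.Agent.H447.TR

open Encodable
open Pool.Agent.H201.AD (exists_computable_find)

variable {α : Type*} [Primcodable α]

lemma iter_compG {S : α → α} (hS : Computable S) : Computable fun x : ℕ × α => S^[x.1] x.2 := by
  have h : Computable fun x : ℕ × α =>
      (Nat.rec (motive := fun _ => α) x.2 (fun _ y => S y) x.1 : α) :=
    Computable.nat_rec (f := fun x : ℕ × α => x.1) (g := fun x => x.2)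
      (h := fun _ p => S p.2) Computable.fst Computable.snd
      (hS.comp (Computable.snd.comp Computable.snd))
  refine h.of_eq fun x => ?_
  obtain ⟨k, y⟩ := x
  simp only
  induction k with
  | zero => rfl
  | succ k ih => rw [Function.iterate_succ_apply', ← ih]

omit [Primcodable α] in
lemma stop_mono {T : α → α} {H : α → Bool} {x : α} {a b : ℕ} (h : a ≤ b)
    (ha : H ((stop T H)^[a] x) = true) : H ((stop T H)^[b] x) = true := by
  induction b, h using Nat.le_induction with
  | base => exact ha
  | succ b _ ih =>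
    rw [Function.iterate_succ_apply']
    have h1 : stop T H ((stop T H)^[b] x) = (stop T H)^[b] x := by
      unfold stop at ih ⊢
      rw [ih]
      rfl
    rw [h1]
    exact ih

/-- `w` is shown to halt, or at least half of its variants are claimed not to halt -/
def okG (T : α → α) (H : α → Bool) (δ : ((ℕ × ℕ) × α) × ℕ → Bool) (var : α × ℕ → α) (K : α → ℕ)
    (y : ((ℕ × ℕ) × ℕ) × α) : Bool :=
  H ((stop T H)^[y.1.2] y.2) || decide (K y.2 ≤
    2 * Pool.Agent.Q324.SC.cnt (fun k => δ ((y.1.1, var (y.2, k)), y.1.2)) (K y.2))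

attribute [local irreducible] Pool.Agent.Q324.SC.cnt in
lemma okG_comp {T : α → α} (hT : Computable T) {H : α → Bool} (hH : Computable H)
    {δ : ((ℕ × ℕ) × α) × ℕ → Bool} (hδ : Computable δ) {var : α × ℕ → α} (hv : Computable var)
    {K : α → ℕ} (hK : Computable K) : Computable (okG T H δ var K) := by
  have hS : Computable (stop T H) := Computable.cond hH Computable.id hT
  have h1 : Computable fun y : ((ℕ × ℕ) × ℕ) × α => H ((stop T H)^[y.1.2] y.2) :=
    hH.comp (Computable.comp (f := fun x : ℕ × α => (stop T H)^[x.1] x.2)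
      (g := fun y : ((ℕ × ℕ) × ℕ) × α => (y.1.2, y.2)) (iter_compG hS)
      ((Computable.snd.comp Computable.fst).pair Computable.snd))
  have h2 : Computable fun z : (((ℕ × ℕ) × ℕ) × α) × ℕ =>
      δ ((z.1.1.1, var (z.1.2, z.2)), z.1.1.2) :=
    Computable.comp (f := δ) (g := fun z : (((ℕ × ℕ) × ℕ) × α) × ℕ =>
      ((z.1.1.1, var (z.1.2, z.2)), z.1.1.2)) hδ
      (((Computable.fst.comp (Computable.fst.comp Computable.fst)).pair
        (hv.comp ((Computable.snd.comp Computable.fst).pair Computable.snd))).pair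
        (Computable.snd.comp (Computable.fst.comp Computable.fst)))
  have h3 : Computable fun y : ((ℕ × ℕ) × ℕ) × α =>
      Pool.Agent.Q324.SC.cnt (fun k => δ ((y.1.1, var (y.2, k)), y.1.2)) (K y.2) :=
    Pool.Agent.Q324.SC.cnt_comp (f := fun (y : ((ℕ × ℕ) × ℕ) × α) k =>
      δ ((y.1.1, var (y.2, k)), y.1.2)) (m := fun y => K y.2) h2 (hK.comp Computable.snd)
  have h4 : Computable fun y : ((ℕ × ℕ) × ℕ) × α =>
      2 * Pool.Agent.Q324.SC.cnt (fun k => δ ((y.1.1, var (y.2, k)), y.1.2)) (K y.2) :=
    Primrec.nat_mul.to_comp.comp (Computable.const 2) h3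
  exact Primrec.or.to_comp.comp h1 (le_dec_comp (hK.comp Computable.snd) h4)

omit [Primcodable α] in
lemma okG_spec {T : α → α} {H : α → Bool} {δ : ((ℕ × ℕ) × α) × ℕ → Bool}
    (hmono : ∀ x s s', s ≤ s' → δ (x, s) = true → δ (x, s') = true) {var : α × ℕ → α} {K : α → ℕ}
    {w : α} {N b : ℕ}
    (hinv : ∀ k < K w, (∃ i, H (T^[i] (var (w, k))) = true) ↔ ∃ i, H (T^[i] w) = true)
    (hE : 2 * {k | k < K w ∧ ((∃ s, δ (((N, b), var (w, k)), s) = true) ↔
      ∃ i, H (T^[i] (var (w, k))) = true)}.ncard < K w) :
    (∃ s₀, ∀ s ≥ s₀, okG T H δ var K (((N, b), s), w) = true) ∧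
    ((∃ i, H (T^[i] w) = true) → ∀ s, okG T H δ var K (((N, b), s), w) = true →
      H ((stop T H)^[s] w) = true) := by
  classical
  let Bd := (Finset.range (K w)).filter fun k =>
    ((∃ s, δ (((N, b), var (w, k)), s) = true) ↔ ∃ i, H (T^[i] (var (w, k))) = true)
  have h1 : {k | k < K w ∧ ((∃ s, δ (((N, b), var (w, k)), s) = true) ↔
      ∃ i, H (T^[i] (var (w, k))) = true)}.ncard = Bd.card := by
    rw [← Set.ncard_coe_finset]
    refine congrArg Set.ncard ?_
    ext k
    simp only [Bd, Finset.coe_filter, Finset.mem_range]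
  rw [h1] at hE
  have h3 := Finset.card_filter_add_card_filter_not (s := Finset.range (K w)) (fun k =>
    ((∃ s, δ (((N, b), var (w, k)), s) = true) ↔ ∃ i, H (T^[i] (var (w, k))) = true))
  rw [Finset.card_range] at h3
  change Bd.card + _ = _ at h3
  constructor
  · by_cases hn : ∃ i, H (T^[i] w) = true
    · obtain ⟨k, hk⟩ := (stop_reach T H w).2 hn
      refine ⟨k, fun s hs => ?_⟩
      unfold okG
      simp only
      rw [stop_mono hs hk]
      rfl
    · have h4 : ∀ k, ∃ s, (∃ s, δ (((N, b), var (w, k)), s) = true) →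
          δ (((N, b), var (w, k)), s) = true := by
        intro k
        by_cases hk : ∃ s, δ (((N, b), var (w, k)), s) = true
        · obtain ⟨s, hs⟩ := hk
          exact ⟨s, fun _ => hs⟩
        · exact ⟨0, fun h => absurd h hk⟩
      choose S hS using h4
      refine ⟨(Finset.range (K w)).sup S, fun s hs => ?_⟩
      unfold okG
      rw [Bool.or_eq_true]
      right
      rw [decide_eq_true_eq, Pool.Agent.Q324.SC.cnt_eq]
      have h5 : (Finset.range (K w)).filter (fun k =>
          ¬ ((∃ s, δ (((N, b), var (w, k)), s) = true) ↔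
            ∃ i, H (T^[i] (var (w, k))) = true)) ⊆
          (Finset.range (K w)).filter fun k => δ (((N, b), var (w, k)), s) = true := by
        intro k hk
        rw [Finset.mem_filter] at hk ⊢
        refine ⟨hk.1, ?_⟩
        have h6 : ∃ s, δ (((N, b), var (w, k)), s) = true := by
          by_contra h7
          exact hk.2 ⟨fun h => absurd h h7,
            fun h => absurd ((hinv k (Finset.mem_range.1 hk.1)).1 h) hn⟩
        exact hmono _ _ _ ((Finset.le_sup hk.1).trans hs) (hS k h6)
      have h6 := Finset.card_le_card h5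
      simp only at h6 ⊢
      omega
  · intro hn s hs
    unfold okG at hs
    rw [Bool.or_eq_true] at hs
    rcases hs with hs | hs
    · exact hs
    · exfalso
      rw [decide_eq_true_eq, Pool.Agent.Q324.SC.cnt_eq] at hs
      have h5 : ((Finset.range (K w)).filter fun k =>
          δ (((N, b), var (w, k)), s) = true) ⊆ Bd := by
        intro k hk
        rw [Finset.mem_filter] at hk ⊢
        exact ⟨hk.1, ⟨fun _ => (hinv k (Finset.mem_range.1 hk.1)).2 hn, fun _ => ⟨s, hk.2⟩⟩⟩
      have h6 := Finset.card_le_card h5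
      simp only at hs h6
      omega

attribute [local irreducible] Pool.Agent.Q324.SC.cnt Pool.Agent.Q324.SC.gmax okG cod in
/-- **Most inputs suffice.** -/
theorem gen_avg {T : α → α} (hT : Computable T) {H : α → Bool} (hH : Computable H)
    {var : α × ℕ → α} (hv : Computable var) {K : α → ℕ} (hK : Computable K) {size : α → ℕ}
    (hs : Computable size)
    (hinv : ∀ w, ∀ k < K w, (∃ i, H (T^[i] (var (w, k))) = true) ↔ ∃ i, H (T^[i] w) = true)
    (q : ℕ) {M : ℕ → ℕ} (hM : Computable M) {D : (ℕ × ℕ) × α →. ℕ} (hD : Partrec D)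
    {r : ℕ → Bool} (hr : Computable r) (hinf : ∀ k, ∃ N ≥ k, r N = true)
    (h : ∀ N, r N = true → 0 < M N ∧ M N ≤ q * {b | b < M N ∧ ∀ w, size w ≤ N →
      2 * {k | k < K w ∧ ((D ((N, b), var (w, k))).Dom ↔
        ∃ i, H (T^[i] (var (w, k))) = true)}.ncard < K w}.ncard) :
    ComputablePred fun w => ∃ k, H (T^[k] w) = true := by
  classical
  obtain ⟨δ, hδ, hδm, hδ2⟩ := dom_approx hD
  have hS : Computable (stop T H) := Computable.cond hH Computable.id hT
  -- the sizes
  obtain ⟨X, hX⟩ : ∃ X : ℕ → ℕ, X = fun j =>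
    Pool.Agent.Q324.SC.gmax (cod size fun _ => 0) (j + 1) := ⟨_, rfl⟩
  have hXc : Computable X := by
    rw [hX]
    exact Pool.Agent.Q324.SC.gmax_comp (f := fun (_ : ℕ) n => cod size (fun _ => 0) n)
      (m := fun j => j + 1) ((cod_comp hs (Computable.const 0)).comp Computable.snd)
      (Computable.succ.comp Computable.id)
  have hX2 : ∀ j (w : α), encode w ≤ j → size w ≤ X j := by
    intro j w hw
    rw [hX]
    have h1 := Pool.Agent.Q324.SC.le_gmax (cod size fun _ => 0) (Nat.lt_succ_of_le hw)
    rw [cod_encode] at h1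
    exact h1
  obtain ⟨σ, hσ, hσ2⟩ := exists_computable_find (p := fun j N => decide (X j ≤ N) && r N)
    (Primrec.and.to_comp.comp (le_dec_comp (hXc.comp Computable.fst) Computable.snd)
      (hr.comp Computable.snd)) fun j => by
      obtain ⟨N, h1, h2⟩ := hinf (X j)
      exact ⟨N, by rw [h2, decide_eq_true h1]; rfl⟩
  have hσ3 : ∀ j, X j ≤ σ j ∧ r (σ j) = true := by
    intro j
    have := hσ2 j
    simp only [Bool.and_eq_true, decide_eq_true_eq] at this
    exact this
  -- the search
  have hok := okG_comp hT hH hδ hv hK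
  have h1 : Computable fun y : (((ℕ × ℕ) × ℕ) × ℕ) =>
      cod (fun w => okG T H δ var K (((σ y.1.1.1, y.1.1.2), y.1.2), w)) (fun _ => true) y.2 := by
    have h2 : Computable₂ fun (y : (((ℕ × ℕ) × ℕ) × ℕ)) (w : α) =>
        (bif decide (encode w = y.2) then
          okG T H δ var K (((σ y.1.1.1, y.1.1.2), y.1.2), w) else true : Bool) := by
      refine Computable.cond ?_ ?_ (Computable.const true)
      · exact eq_dec_comp (Computable.encode.comp Computable.snd)
          (Computable.snd.comp Computable.fst)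
      · exact Computable.comp (f := okG T H δ var K)
          (g := fun z : (((ℕ × ℕ) × ℕ) × ℕ) × α =>
            (((σ z.1.1.1.1, z.1.1.1.2), z.1.1.2), z.2)) hok
          ((((hσ.comp (Computable.fst.comp (Computable.fst.comp (Computable.fst.comp
            Computable.fst)))).pair (Computable.snd.comp (Computable.fst.comp
            (Computable.fst.comp Computable.fst)))).pair (Computable.snd.comp
            (Computable.fst.comp Computable.fst))).pair Computable.snd)
    have h3 := Computable.option_casesOn (o := fun y : (((ℕ × ℕ) × ℕ) × ℕ) =>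
      (decode (α := α) y.2 : Option α)) (f := fun _ => true)
      (Computable.decode.comp Computable.snd) (Computable.const true) h2
    refine h3.of_eq fun y => ?_
    unfold cod
    rfl
  obtain ⟨Q, hQ⟩ : ∃ Q : (ℕ × ℕ) → ℕ → Bool, Q = fun a s => decide (Pool.Agent.Q324.SC.cnt
    (fun n => !(cod (fun w => okG T H δ var K (((σ a.1, a.2), s), w)) (fun _ => true) n))
      (a.1 + 1) ≤ 0) := ⟨_, rfl⟩
  have hQc : Computable₂ Q := by
    rw [hQ]
    have h2 : Computable fun y : (((ℕ × ℕ) × ℕ) × ℕ) =>
        !(cod (fun w => okG T H δ var K (((σ y.1.1.1, y.1.1.2), y.1.2), w)) (fun _ => true) y.2) :=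
      Primrec.not.to_comp.comp h1
    have h3 : Computable fun x : (ℕ × ℕ) × ℕ => Pool.Agent.Q324.SC.cnt
        (fun n => !(cod (fun w => okG T H δ var K (((σ x.1.1, x.1.2), x.2), w))
          (fun _ => true) n)) (x.1.1 + 1) :=
      Pool.Agent.Q324.SC.cnt_comp (f := fun (x : (ℕ × ℕ) × ℕ) n =>
        !(cod (fun w => okG T H δ var K (((σ x.1.1, x.1.2), x.2), w)) (fun _ => true) n))
        (m := fun x => x.1.1 + 1) h2 (Computable.succ.comp (Computable.fst.comp Computable.fst))
    exact le_dec_comp h3 (Computable.const 0)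
  have hQ2 : ∀ j b s, Q (j, b) s = true ↔
      ∀ w : α, encode w ≤ j → okG T H δ var K (((σ j, b), s), w) = true := by
    intro j b s
    rw [hQ]
    simp only [decide_eq_true_eq, Nat.le_zero, Pool.Agent.Q324.SC.cnt_eq, Finset.card_eq_zero]
    rw [Finset.filter_eq_empty_iff]
    constructor
    · intro h1 w hw
      have h2 := h1 (x := encode w) (Finset.mem_range.2 (Nat.lt_succ_of_le hw))
      rw [cod_encode] at h2
      simpa using h2
    · intro h1 n hn
      by_cases hn2 : ∃ w : α, encode w = n
      · obtain ⟨w, rfl⟩ := hn2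
        rw [cod_encode, h1 w (Nat.lt_succ_iff.1 (Finset.mem_range.1 hn))]
        simp
      · push Not at hn2
        rw [cod_other _ _ hn2]
        simp
  have hF' : Partrec fun a : ℕ × ℕ => Nat.rfind fun s => Part.some (Q a s) :=
    Partrec.rfind hQc.partrec₂
  obtain ⟨C, hC, hC2⟩ := bounded_of_random hF' q (M := fun j => M (σ j)) (hM.comp hσ)
    (fun j c => ∀ w : α, encode w ≤ j → (∃ i, H (T^[i] w) = true) →
      H ((stop T H)^[c] w) = true)
    (fun i c c' hc hP w hw hk => stop_mono hc (hP w hw hk))
    (fun i j c hij hP w hw hk => hP w (hw.trans hij) hk) fun j => by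
      obtain ⟨g1, g2⟩ := hσ3 j
      obtain ⟨g4, g5⟩ := h (σ j) g2
      refine ⟨g4, g5.trans (Nat.mul_le_mul_left q (Set.ncard_le_ncard ?_ ?_))⟩
      · rintro b ⟨hb, hb2⟩
        have k1 : ∀ w : α, encode w ≤ j →
            (∃ s₀, ∀ s ≥ s₀, okG T H δ var K (((σ j, b), s), w) = true) ∧
            ((∃ i, H (T^[i] w) = true) → ∀ s, okG T H δ var K (((σ j, b), s), w) = true →
              H ((stop T H)^[s] w) = true) := by
          intro w hw
          refine okG_spec hδm (hinv w) ?_
          have k2 := hb2 w ((hX2 j w hw).trans g1)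
          have k3 : {k | k < K w ∧ ((∃ s, δ (((σ j, b), var (w, k)), s) = true) ↔
              ∃ i, H (T^[i] (var (w, k))) = true)} = {k | k < K w ∧
              ((D ((σ j, b), var (w, k))).Dom ↔ ∃ i, H (T^[i] (var (w, k))) = true)} := by
            ext k
            have h1 := hδ2 ((σ j, b), var (w, k))
            constructor
            · rintro ⟨a1, a3⟩
              exact ⟨a1, h1.trans a3⟩
            · rintro ⟨a1, a3⟩
              exact ⟨a1, h1.symm.trans a3⟩
          rw [k3]
          exact k2
        have k2 : ∃ s, Q (j, b) s = true := by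
          have k3 : ∀ n, ∃ s₀, ∀ w : α, encode w = n → n ≤ j → ∀ s ≥ s₀,
              okG T H δ var K (((σ j, b), s), w) = true := by
            intro n
            by_cases hn : ∃ w : α, encode w = n ∧ n ≤ j
            · obtain ⟨w, rfl, hw⟩ := hn
              obtain ⟨s₀, hs₀⟩ := (k1 w hw).1
              refine ⟨s₀, fun v hv _ => ?_⟩
              rw [encode_injective hv]
              exact hs₀
            · exact ⟨0, fun w h1 h2 => absurd ⟨w, h1, h2⟩ hn⟩
          choose S hS using k3
          refine ⟨(Finset.range (j + 1)).sup S, (hQ2 _ _ _).2 fun w hw => ?_⟩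
          exact hS _ w rfl hw _ (Finset.le_sup (Finset.mem_range.2 (Nat.lt_succ_of_le hw)))
        obtain ⟨s₀, hs₀⟩ := k2
        have k3 : (Nat.rfind fun s => Part.some (Q (j, b) s)).Dom :=
          Nat.rfind_dom.mpr ⟨s₀, by rw [hs₀]; exact Part.mem_some _, fun _ => trivial⟩
        have k4 := Part.get_mem k3
        generalize (Nat.rfind fun s => Part.some (Q (j, b) s)).get k3 = s at k4
        have k5 : Q (j, b) s = true := by
          have := Nat.rfind_spec k4
          simpa using this
        exact ⟨hb, s, k4, fun w hw hk => (k1 w hw).2 hk s ((hQ2 j b s).1 k5 w hw)⟩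
      · exact (Set.finite_lt_nat (M (σ j))).subset fun b hb => hb.1
  refine ComputablePred.computable_iff.2
    ⟨fun w => H ((stop T H)^[C (encode w)] w), ?_, ?_⟩
  · exact hH.comp (Computable.comp (f := fun x : ℕ × α => (stop T H)^[x.1] x.2)
      (g := fun w : α => (C (encode w), w)) (iter_compG hS)
      ((hC.comp Computable.encode).pair Computable.id))
  · funext w
    rw [eq_iff_iff]
    constructor
    · intro h1
      exact hC2 _ w le_rfl h1
    · intro h1
      exact (stop_reach T H w).1 ⟨_, h1⟩

end Pool.Agent.H447.TR
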