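import Pool.Agent.H447.TR.Avg

/-!
# The Collatz graph: from most numbers to all numbers, the main theorem
-/

set_option autoImplicit false

namespace Pool.Agent.H447.TR

open Pool.Agent.H201.AD (exists_computable_find)

attribute [local irreducible] Nat.unpair Nat.pair Pool.Agent.Q324.SC.cnt node gg ok co
  Pool.Agent.Q324.SC.gmax in
/-- **Most numbers suffice.** -/
theorem avg (q : ℕ) {M : ℕ → ℕ} (hM : Computable M) {D : (ℕ × ℕ) × ℕ →. ℕ} (hD : Partrec D)
    {r : ℕ → Bool} (hr : Computable r) (hinf : ∀ B, ∃ N ≥ B, r N = true)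
    (h : ∀ N, r N = true → 0 < M N ∧ M N ≤ q * {b | b < M N ∧
      {m | 0 < m ∧ m ≤ N ∧ ((D ((N, b), m)).Dom ↔ Rc m)}.ncard ^ 5 ≤ N}.ncard) :
    ∃ C : ℕ → ℕ, Computable C ∧ ∀ n, (∃ k, gg (co^[k] n) = true) → gg (co^[C n] n) = true := by
  classical
  obtain ⟨δ, hδ, hδm, hδ2⟩ := dom_approx hD
  -- the roots
  obtain ⟨τ, hτ, hτ2⟩ := exists_computable_find
    (p := fun n t => decide (n ≤ 0) || (decide (1 ≤ co^[t] n % 2) && decide (1 ≤ co^[t] n % 3)))
    (by
      have h0 : Computable fun a : ℕ × ℕ => co^[a.2] a.1 :=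
        Computable.comp (f := fun x : ℕ × ℕ => co^[x.1] x.2) (g := fun a : ℕ × ℕ => (a.2, a.1))
          (iter_comp co_comp) (Computable.snd.pair Computable.fst)
      have h1 : ∀ d : ℕ, Computable fun a : ℕ × ℕ => co^[a.2] a.1 % d := fun d =>
        Primrec.nat_mod.to_comp.comp h0 (Computable.const d)
      exact Primrec.or.to_comp.comp (le_dec_comp Computable.fst (Computable.const 0))
        (Primrec.and.to_comp.comp (le_dec_comp (Computable.const 1) (h1 2))
          (le_dec_comp (Computable.const 1) (h1 3)))) (fun n => by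
      rcases Nat.eq_zero_or_pos n with hn | hn
      · exact ⟨0, by rw [hn]; rfl⟩
      · obtain ⟨t, h1, h2⟩ := root_exists n hn
        refine ⟨t, ?_⟩
        rw [decide_eq_true (show 1 ≤ co^[t] n % 2 by omega),
          decide_eq_true (show 1 ≤ co^[t] n % 3 by omega)]
        simp)
  obtain ⟨ρ, hρ⟩ : ∃ ρ : ℕ → ℕ, ρ = fun n => co^[τ n] n := ⟨_, rfl⟩
  have hρc : Computable ρ := by
    rw [hρ]
    exact Computable.comp (f := fun x : ℕ × ℕ => co^[x.1] x.2) (g := fun n => (τ n, n))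
      (iter_comp co_comp) (hτ.pair Computable.id)
  have hρ2 : ∀ n, 0 < n → ρ n % 2 = 1 ∧ ρ n % 3 ≠ 0 ∧ (Rc (ρ n) ↔ Rc n) := by
    intro n hn
    have h1 := hτ2 n
    simp only [Bool.or_eq_true, Bool.and_eq_true, decide_eq_true_eq] at h1
    rw [hρ]
    change co^[τ n] n % 2 = 1 ∧ co^[τ n] n % 3 ≠ 0 ∧ (Rc (co^[τ n] n) ↔ Rc n)
    exact ⟨by omega, by omega, Rc_iter _ _⟩
  -- the sizes of the roots
  obtain ⟨X, hX⟩ : ∃ X : ℕ → ℕ, X = fun j => Pool.Agent.Q324.SC.gmax ρ (j + 1) + 1 := ⟨_, rfl⟩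
  have hXc : Computable X := by
    rw [hX]
    exact Computable.succ.comp (Pool.Agent.Q324.SC.gmax_comp (f := fun (_ : ℕ) n => ρ n)
      (m := fun j => j + 1) (hρc.comp Computable.snd) (Computable.succ.comp Computable.id))
  have hX2 : ∀ j n, n ≤ j → ρ n ≤ X j := by
    intro j n hn
    rw [hX]
    exact (Pool.Agent.Q324.SC.le_gmax ρ (Nat.lt_succ_of_le hn)).trans (Nat.le_succ _)
  -- the stages
  obtain ⟨σ, hσ, hσ2⟩ := exists_computable_find
    (p := fun j z => r z.unpair.1 && (decide (22 ^ z.unpair.2 * X j ≤ z.unpair.1) &&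
      decide (32 * z.unpair.1 + 1 ≤ 32 ^ z.unpair.2)))
    (by
      have u1 : Computable fun a : ℕ × ℕ => a.2.unpair.1 :=
        Computable.fst.comp (Computable.unpair.comp Computable.snd)
      have u2 : Computable fun a : ℕ × ℕ => a.2.unpair.2 :=
        Computable.snd.comp (Computable.unpair.comp Computable.snd)
      have h1 : Computable fun a : ℕ × ℕ => 22 ^ a.2.unpair.2 * X a.1 :=
        Primrec.nat_mul.to_comp.comp (pow_comp (Computable.const 22) u2) (hXc.comp Computable.fst)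
      have h2 : Computable fun a : ℕ × ℕ => 32 * a.2.unpair.1 + 1 :=
        Computable.succ.comp (Primrec.nat_mul.to_comp.comp (Computable.const 32) u1)
      exact Primrec.and.to_comp.comp (hr.comp u1) (Primrec.and.to_comp.comp (le_dec_comp h1 u1)
        (le_dec_comp h2 (pow_comp (Computable.const 32) u2)))) (fun j => by
      obtain ⟨N₀, hN₀⟩ := level_exists (X j) (by rw [hX]; exact Nat.succ_pos _)
      obtain ⟨N, h1, h2⟩ := hinf N₀
      obtain ⟨l, h3, h4⟩ := hN₀ N h1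
      refine ⟨Nat.pair N l, ?_⟩
      simp only [Nat.unpair_pair]
      rw [h2, decide_eq_true h3, decide_eq_true (Nat.succ_le_of_lt h4)]
      rfl)
  obtain ⟨NN, hNN⟩ : ∃ NN : ℕ → ℕ, NN = fun j => (σ j).unpair.1 := ⟨_, rfl⟩
  obtain ⟨LL, hLL⟩ : ∃ LL : ℕ → ℕ, LL = fun j => (σ j).unpair.2 := ⟨_, rfl⟩
  have hNNc : Computable NN := by
    rw [hNN]
    exact Computable.fst.comp (Computable.unpair.comp hσ)
  have hLLc : Computable LL := by
    rw [hLL]
    exact Computable.snd.comp (Computable.unpair.comp hσ)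
  have hσ3 : ∀ j, r (NN j) = true ∧ 22 ^ LL j * X j ≤ NN j ∧ 32 * NN j < 32 ^ LL j := by
    intro j
    have h1 := hσ2 j
    simp only [Bool.and_eq_true, decide_eq_true_eq] at h1
    rw [hNN, hLL]
    exact ⟨h1.1, h1.2.1, h1.2.2⟩
  -- the search
  obtain ⟨Q, hQ⟩ : ∃ Q : (ℕ × ℕ) → ℕ → Bool, Q = fun a s => decide (Pool.Agent.Q324.SC.cnt
    (fun i => !(ok δ (NN a.1) a.2 (LL a.1) (ρ (i + 1)) s (i + 1))) a.1 ≤ 0) := ⟨_, rfl⟩
  have hQc : Computable₂ Q := by
    rw [hQ]
    have h1 : Computable fun y : ((ℕ × ℕ) × ℕ) × ℕ =>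
        ok δ (NN y.1.1.1) y.1.1.2 (LL y.1.1.1) (ρ (y.2 + 1)) y.1.2 (y.2 + 1) := by
      have e1 : Computable fun y : ((ℕ × ℕ) × ℕ) × ℕ => y.1.1.1 :=
        Computable.fst.comp (Computable.fst.comp Computable.fst)
      have e2 : Computable fun y : ((ℕ × ℕ) × ℕ) × ℕ => y.1.1.2 :=
        Computable.snd.comp (Computable.fst.comp Computable.fst)
      have e3 : Computable fun y : ((ℕ × ℕ) × ℕ) × ℕ => y.1.2 :=
        Computable.snd.comp Computable.fst
      have e4 : Computable fun y : ((ℕ × ℕ) × ℕ) × ℕ => y.2 + 1 :=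
        Computable.succ.comp Computable.snd
      exact Computable.comp (f := fun a : ((ℕ × ℕ) × ℕ) × (ℕ × ℕ) × ℕ =>
          ok δ a.1.1.1 a.1.1.2 a.1.2 a.2.1.1 a.2.1.2 a.2.2)
        (g := fun y : ((ℕ × ℕ) × ℕ) × ℕ =>
          (((NN y.1.1.1, y.1.1.2), LL y.1.1.1), ((ρ (y.2 + 1), y.1.2), y.2 + 1))) (ok_comp hδ)
        ((((hNNc.comp e1).pair e2).pair (hLLc.comp e1)).pair
          (((hρc.comp e4).pair e3).pair e4))
    have h2 : Computable fun y : ((ℕ × ℕ) × ℕ) × ℕ =>
        !(ok δ (NN y.1.1.1) y.1.1.2 (LL y.1.1.1) (ρ (y.2 + 1)) y.1.2 (y.2 + 1)) :=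
      Primrec.not.to_comp.comp h1
    have h3 : Computable fun x : (ℕ × ℕ) × ℕ => Pool.Agent.Q324.SC.cnt
        (fun i => !(ok δ (NN x.1.1) x.1.2 (LL x.1.1) (ρ (i + 1)) x.2 (i + 1))) x.1.1 :=
      Pool.Agent.Q324.SC.cnt_comp (f := fun (x : (ℕ × ℕ) × ℕ) i =>
        !(ok δ (NN x.1.1) x.1.2 (LL x.1.1) (ρ (i + 1)) x.2 (i + 1))) (m := fun x => x.1.1) h2
        (Computable.fst.comp Computable.fst)
    exact le_dec_comp h3 (Computable.const 0)
  have hQ2 : ∀ j b s, Q (j, b) s = true ↔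
      ∀ n ≤ j, 0 < n → ok δ (NN j) b (LL j) (ρ n) s n = true := by
    intro j b s
    rw [hQ]
    simp only [decide_eq_true_eq, Nat.le_zero, Pool.Agent.Q324.SC.cnt_eq, Finset.card_eq_zero]
    rw [Finset.filter_eq_empty_iff]
    constructor
    · intro h1 n hn hn2
      have h2 := h1 (x := n - 1) (Finset.mem_range.2 (by omega))
      rw [Nat.sub_add_cancel hn2] at h2
      simpa using h2
    · intro h1 i hi
      have h2 := h1 (i + 1) (by have := Finset.mem_range.1 hi; omega) (Nat.succ_pos _)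
      rw [h2]
      simp
  have hF' : Partrec fun a : ℕ × ℕ => Nat.rfind fun s => Part.some (Q a s) :=
    Partrec.rfind hQc.partrec₂
  obtain ⟨C, hC, hC2⟩ := bounded_of_random hF' q (M := fun j => M (NN j)) (hM.comp hNNc)
    (fun j c => ∀ n ≤ j, (∃ k, gg (co^[k] n) = true) → gg (co^[c] n) = true)
    (fun i c c' hc hP n hn hk => g_mono gg_inv hc (hP n hn hk))
    (fun i j c hij hP n hn hk => hP n (hn.trans hij) hk) fun j => by
      obtain ⟨g1, g2, g3⟩ := hσ3 j
      obtain ⟨g4, g5⟩ := h (NN j) g1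
      refine ⟨g4, g5.trans (Nat.mul_le_mul_left q (Set.ncard_le_ncard ?_ ?_))⟩
      · rintro b ⟨hb, hb2⟩
        have hE : {m | 0 < m ∧ m ≤ NN j ∧ ((∃ s, δ (((NN j, b), m), s) = true) ↔ Rc m)}.ncard ^ 5 ≤
            NN j := by
          have : {m | 0 < m ∧ m ≤ NN j ∧ ((∃ s, δ (((NN j, b), m), s) = true) ↔ Rc m)} =
              {m | 0 < m ∧ m ≤ NN j ∧ ((D ((NN j, b), m)).Dom ↔ Rc m)} := by
            ext m
            have h1 := hδ2 ((NN j, b), m)
            constructor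
            · rintro ⟨a1, a2, a3⟩
              exact ⟨a1, a2, h1.trans a3⟩
            · rintro ⟨a1, a2, a3⟩
              exact ⟨a1, a2, h1.symm.trans a3⟩
          rw [this]
          exact hb2
        have k1 : ∀ n ≤ j, 0 < n →
            (∃ s₀, ∀ s ≥ s₀, ok δ (NN j) b (LL j) (ρ n) s n = true) ∧
            (Rc n → ∀ s, ok δ (NN j) b (LL j) (ρ n) s n = true → gg (co^[s] n) = true) := by
          intro n hn hn2
          obtain ⟨b1, b2, b3⟩ := hρ2 n hn2
          exact ok_spec hδm b1 b2 b3 ((Nat.mul_le_mul_left _ (hX2 j n hn)).trans g2) g3 hE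
        have k2 : ∃ s, Q (j, b) s = true := by
          have k3 : ∀ n, ∃ s₀, n ≤ j → 0 < n → ∀ s ≥ s₀,
              ok δ (NN j) b (LL j) (ρ n) s n = true := by
            intro n
            by_cases hn : n ≤ j ∧ 0 < n
            · obtain ⟨s₀, hs₀⟩ := (k1 n hn.1 hn.2).1
              exact ⟨s₀, fun _ _ => hs₀⟩
            · exact ⟨0, fun h1 h2 => absurd ⟨h1, h2⟩ hn⟩
          choose S hS using k3
          refine ⟨(Finset.range (j + 1)).sup S, (hQ2 _ _ _).2 fun n hn hn2 => ?_⟩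
          exact hS n hn hn2 _ (Finset.le_sup (Finset.mem_range.2 (Nat.lt_succ_of_le hn)))
        obtain ⟨s₀, hs₀⟩ := k2
        have k3 : (Nat.rfind fun s => Part.some (Q (j, b) s)).Dom :=
          Nat.rfind_dom.mpr ⟨s₀, by rw [hs₀]; exact Part.mem_some _, fun _ => trivial⟩
        have k4 := Part.get_mem k3
        generalize (Nat.rfind fun s => Part.some (Q (j, b) s)).get k3 = s at k4
        have k5 : Q (j, b) s = true := by
          have := Nat.rfind_spec k4
          simpa using this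
        refine ⟨hb, s, k4, fun n hn hk => ?_⟩
        have hn2 : 0 < n := by
          rcases Nat.eq_zero_or_pos n with h0 | h0
          · rw [h0] at hk
            exact absurd hk not_Rc_zero
          · exact h0
        exact (k1 n hn hn2).2 hk s ((hQ2 j b s).1 k5 n hn hn2)
      · exact (Set.finite_lt_nat (M (NN j))).subset fun b hb => hb.1
  exact ⟨C, hC, fun n hk => hC2 n n le_rfl hk⟩

end Pool.Agent.H447.TR
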