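import Pool.Graph.R_pool_sql_team_seeded_2aa45f1a.Q324.SC.PlaneMain
import Pool.Graph.R_pool_sql_team_seeded_2aa45f1a.Q324.SC.IntOps
import Pool.Agent.H447.IPX.H201_Core

/-!
# Random advice for the computation of an upper bound

As `Pool.Agent.H201.AD.bounded_of_advice`, but with a computable number `M j` of guesses, at least a fraction
`1 / q` of which is right.
-/

set_option autoImplicit false

namespace Pool.Agent.H447.TR

open Pool.Agent.H201.AD (exists_computable_find exists_code_pair)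
open Nat.Partrec (Code)

lemma cs_eq (c : Code) (k j s : ℕ) :
    Pool.Agent.Q324.SC.cnt (fun b => (Pool.Agent.H201.AD.ev c j s b).isSome) k =
      Pool.Agent.H201.AD.cnt c k j s := by
  rw [Pool.Agent.H201.AD.cnt_eq_card, Pool.Agent.Q324.SC.cnt_eq]

lemma primrec_ev2 (c : Code) : Primrec fun a : (ℕ × ℕ) × ℕ =>
    Pool.Agent.H201.AD.ev c a.1.1 a.1.2 a.2 := by
  unfold Pool.Agent.H201.AD.ev
  exact Nat.Partrec.Code.primrec_evaln.comp
    (Primrec.pair (Primrec.pair (Primrec.snd.comp Primrec.fst) (Primrec.const c))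
      (Primrec₂.natPair.comp (Primrec.fst.comp Primrec.fst) Primrec.snd))

lemma cs_comp (c : Code) {M : ℕ → ℕ} (hM : Computable M) :
    Computable fun a : ℕ × ℕ => Pool.Agent.H201.AD.cnt c (M a.1) a.1 a.2 := by
  have h := Pool.Agent.Q324.SC.cnt_comp
    (f := fun (a : ℕ × ℕ) b => (Pool.Agent.H201.AD.ev c a.1 a.2 b).isSome) (m := fun a => M a.1)
    (Primrec.option_isSome.comp (primrec_ev2 c)).to_comp (hM.comp Computable.fst)
  exact h.of_eq fun a => cs_eq c _ _ _

lemma gs_comp (c : Code) {M : ℕ → ℕ} (hM : Computable M) :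
    Computable fun a : ℕ × ℕ => Pool.Agent.Q324.SC.gmax
      (fun b => (Pool.Agent.H201.AD.ev c a.1 a.2 b).getD 0) (M a.1) :=
  Pool.Agent.Q324.SC.gmax_comp
    (f := fun (a : ℕ × ℕ) b => (Pool.Agent.H201.AD.ev c a.1 a.2 b).getD 0) (m := fun a => M a.1)
    (Primrec.option_getD.comp (primrec_ev2 c) (Primrec.const 0)).to_comp (hM.comp Computable.fst)

attribute [local irreducible] Nat.unpair Nat.pair Pool.Agent.H201.AD.cnt
  Pool.Agent.Q324.SC.gmax in
/-- **Random advice.** -/
theorem bounded_of_random {F : ℕ × ℕ →. ℕ} (hF : Partrec F) (q : ℕ) {M : ℕ → ℕ}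
    (hM : Computable M) (P : ℕ → ℕ → Prop) (hmono : ∀ i c c', c ≤ c' → P i c → P i c')
    (hdown : ∀ i j c, i ≤ j → P j c → P i c)
    (hadv : ∀ j, 0 < M j ∧ M j ≤ q * {b | b < M j ∧ ∃ c ∈ F (j, b), P j c}.ncard) :
    ∃ C : ℕ → ℕ, Computable C ∧ ∀ i, P i (C i) := by
  classical
  obtain ⟨c, hc⟩ := exists_code_pair hF
  let hal : ℕ → ℕ := fun j => Pool.Agent.H201.AD.hal c (M j) j
  have hal_le : ∀ j, hal j ≤ M j := fun j => Pool.Agent.H201.AD.hal_le c (M j) j
  -- the largest proportion of halting guesses at arbitrarily large stages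
  let A : ℕ → Prop := fun m => ∀ i, ∃ j ≥ i, m * M j ≤ q * hal j
  have hA0 : A 0 := fun i => ⟨i, le_rfl, by rw [zero_mul]; exact Nat.zero_le _⟩
  have hAk : ∃ m, ¬ A m := ⟨q + 1, fun h => by
    obtain ⟨j, _, h1⟩ := h 0
    have h2 := Nat.mul_le_mul_left q (hal_le j)
    have h3 := (hadv j).1
    rw [add_mul, one_mul] at h1
    omega⟩
  obtain ⟨m, hm, hm'⟩ : ∃ m, A m ∧ ¬ A (m + 1) := by
    have h1 := Nat.find_spec hAk
    have h2 : Nat.find hAk ≠ 0 := fun h => by
      rw [h] at h1
      exact h1 hA0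
    obtain ⟨m, hm⟩ := Nat.exists_eq_succ_of_ne_zero h2
    refine ⟨m, ?_, ?_⟩
    · by_contra h3
      have := Nat.find_min' hAk h3
      omega
    · rw [← Nat.succ_eq_add_one, ← hm]
      exact h1
  obtain ⟨i0, hi0⟩ : ∃ i0, ∀ j ≥ i0, q * hal j < (m + 1) * M j := by
    by_contra h
    push Not at h
    exact hm' fun i => by
      obtain ⟨j, h1, h2⟩ := h i
      exact ⟨j, h1, h2⟩
  let J : ℕ → ℕ → ℕ := fun i n => i + i0 + n.unpair.1
  let p : ℕ → ℕ → Bool := fun i n =>
    decide (m * M (J i n) ≤ q * Pool.Agent.H201.AD.cnt c (M (J i n)) (J i n) n.unpair.2)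
  have hJ : Primrec₂ J := by
    have h1 : Primrec fun a : ℕ × ℕ => a.1 + i0 :=
      Primrec.nat_add.comp Primrec.fst (Primrec.const i0)
    exact Primrec.nat_add.comp h1 (Primrec.fst.comp (Primrec.unpair.comp Primrec.snd))
  have hp : Computable₂ p := by
    have h1 : Computable fun a : ℕ × ℕ =>
        Pool.Agent.H201.AD.cnt c (M (J a.1 a.2)) (J a.1 a.2) a.2.unpair.2 :=
      Computable.comp (f := fun a : ℕ × ℕ => Pool.Agent.H201.AD.cnt c (M a.1) a.1 a.2)
        (g := fun a : ℕ × ℕ => (J a.1 a.2, a.2.unpair.2)) (cs_comp c hM)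
        (hJ.to_comp.pair (Computable.snd.comp (Computable.unpair.comp Computable.snd)))
    have h2 : Computable fun a : ℕ × ℕ => m * M (J a.1 a.2) :=
      Primrec.nat_mul.to_comp.comp (Computable.const m) (hM.comp hJ.to_comp)
    have h3 : Computable fun a : ℕ × ℕ =>
        q * Pool.Agent.H201.AD.cnt c (M (J a.1 a.2)) (J a.1 a.2) a.2.unpair.2 :=
      Primrec.nat_mul.to_comp.comp (Computable.const q) h1
    have h4 : Primrec (fun y : ℕ × ℕ => decide (y.1 ≤ y.2)) :=
      (show PrimrecPred fun y : ℕ × ℕ => y.1 ≤ y.2 from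
        Primrec.nat_le.comp Primrec.fst Primrec.snd).decide
    exact Computable.comp (f := fun y : ℕ × ℕ => decide (y.1 ≤ y.2))
      (g := fun a : ℕ × ℕ => (m * M (J a.1 a.2),
        q * Pool.Agent.H201.AD.cnt c (M (J a.1 a.2)) (J a.1 a.2) a.2.unpair.2))
      h4.to_comp (h2.pair h3)
  obtain ⟨f, hf, hf'⟩ := exists_computable_find hp fun i => by
    obtain ⟨j, h1, h2⟩ := hm (i + i0)
    obtain ⟨s, hs⟩ := Pool.Agent.H201.AD.exists_cnt_eq c (M j) j
    refine ⟨Nat.pair (j - (i + i0)) s, ?_⟩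
    have h3 : J i (Nat.pair (j - (i + i0)) s) = j := by
      simp only [J, Nat.unpair_pair]
      omega
    simp only [p, decide_eq_true_eq, h3, Nat.unpair_pair]
    exact h2.trans (Nat.mul_le_mul_left q hs)
  refine ⟨fun i => Pool.Agent.Q324.SC.gmax
    (fun b => (Pool.Agent.H201.AD.ev c (J i (f i)) (f i).unpair.2 b).getD 0) (M (J i (f i))),
    ?_, fun i => ?_⟩
  · have h1 : Computable fun i => J i (f i) := hJ.to_comp.comp Computable.id hf
    have h2 : Computable fun i => (f i).unpair.2 :=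
      Computable.snd.comp (Computable.unpair.comp hf)
    exact Computable.comp (f := fun a : ℕ × ℕ => Pool.Agent.Q324.SC.gmax
        (fun b => (Pool.Agent.H201.AD.ev c a.1 a.2 b).getD 0) (M a.1))
      (g := fun i => (J i (f i), (f i).unpair.2)) (gs_comp c hM) (h1.pair h2)
  · have h1 := hf' i
    simp only [p, decide_eq_true_eq] at h1
    have h2 : i ≤ J i (f i) := by simp only [J]; omega
    have h3 : i0 ≤ J i (f i) := by simp only [J]; omega
    refine hdown i _ _ h2 ?_
    change P (J i (f i)) (Pool.Agent.Q324.SC.gmax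
      (fun b => (Pool.Agent.H201.AD.ev c (J i (f i)) (f i).unpair.2 b).getD 0) (M (J i (f i))))
    generalize (f i).unpair.2 = s at h1 ⊢
    generalize J i (f i) = j at h1 h2 h3 ⊢
    obtain ⟨_, h4⟩ := hadv j
    have h5 := hi0 j h3
    -- the good guesses and the guesses seen
    let G : Finset ℕ := (Finset.range (M j)).filter fun b => ∃ x ∈ F (j, b), P j x
    let S : Finset ℕ := (Finset.range (M j)).filter fun b =>
      (Pool.Agent.H201.AD.ev c j s b).isSome
    have hG : {b | b < M j ∧ ∃ x ∈ F (j, b), P j x}.ncard = G.card := by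
      rw [← Set.ncard_coe_finset]
      refine congrArg Set.ncard ?_
      ext b
      simp only [G, Finset.coe_filter, Finset.mem_range]
    have hS : Pool.Agent.H201.AD.cnt c (M j) j s = S.card := Pool.Agent.H201.AD.cnt_eq_card c _ _ _
    rw [hG] at h4
    rw [hS] at h1
    have h6 : ∃ b ∈ G, b ∈ S := by
      by_contra hcon
      push Not at hcon
      have h7 : Disjoint G S := Finset.disjoint_left.2 hcon
      have h8 : (G ∪ S).card ≤ hal j := by
        refine Finset.card_le_card ?_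
        intro b hb
        rw [Finset.mem_filter]
        rcases Finset.mem_union.1 hb with hb | hb
        · obtain ⟨g1, x, hx, _⟩ := Finset.mem_filter.1 hb
          refine ⟨g1, Part.dom_iff_mem.2 ⟨x, ?_⟩⟩
          rw [hc]
          exact hx
        · obtain ⟨g1, g2⟩ := Finset.mem_filter.1 hb
          exact ⟨g1, Pool.Agent.H201.AD.dom_of_isSome g2⟩
      rw [Finset.card_union_of_disjoint h7] at h8
      have h9 := Nat.mul_le_mul_left q h8
      rw [mul_add] at h9
      rw [add_mul, one_mul] at h5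
      omega
    obtain ⟨b, hb, hb2⟩ := h6
    obtain ⟨g1, x, hx, hPx⟩ := Finset.mem_filter.1 hb
    obtain ⟨_, g2⟩ := Finset.mem_filter.1 hb2
    obtain ⟨y, hy⟩ := Option.isSome_iff_exists.1 g2
    have g3 : y ∈ c.eval (Nat.pair j b) :=
      Nat.Partrec.Code.evaln_sound (show y ∈ c.evaln s _ from hy)
    rw [hc] at g3
    obtain rfl := Part.mem_unique hx g3
    refine hmono j x _ ?_ hPx
    have g4 := Pool.Agent.Q324.SC.le_gmax
      (fun b => (Pool.Agent.H201.AD.ev c j s b).getD 0) (Finset.mem_range.1 g1)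
    rw [hy] at g4
    exact g4

end Pool.Agent.H447.TR
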