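import Pool.Agent.H447.TR.GenAvg

/-!
# Tag systems: components, irrelevant letters, random advice
-/

set_option autoImplicit false

namespace Pool.Agent.H447.TR

open Encodable

variable {A : Type} [Primcodable A]

/-- `r` is an infinite decidable set -/
def StagesG (r : ℕ → Bool) : Prop := Computable r ∧ ∀ k, ∃ N ≥ k, r N = true

/-- a fraction of at least `1 / q` of the seeds `b < M` satisfies `p` -/
def OftenG (q M : ℕ) (p : ℕ → Prop) : Prop := 0 < M ∧ M ≤ q * {b | b < M ∧ p b}.ncard

lemma oftenG_one (p : ℕ → Prop) (hp : p 0) : OftenG 1 1 p := by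
  refine ⟨Nat.one_pos, ?_⟩
  have h1 : {b | b < 1 ∧ p b} = {0} := by
    ext b
    constructor
    · rintro ⟨hb, _⟩
      exact Nat.lt_one_iff.1 hb
    · intro hb
      have hb' : b = 0 := hb
      exact ⟨by omega, by rw [hb']; exact hp⟩
  rw [h1, Set.ncard_singleton]

lemma stagesG_all : StagesG fun _ => true := ⟨Computable.const true, fun k => ⟨k, le_rfl, rfl⟩⟩

theorem gen_iff {α : Type*} [Primcodable α] {T : α → α} (hT : Computable T) {H : α → Bool}
    (hH : Computable H) : (ComputablePred fun w => ∃ k, H (T^[k] w) = true) ↔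
      ∃ (B : α → Prop) (q : ℕ) (M : ℕ → ℕ) (F : ℕ × ℕ →. ℕ) (r : ℕ → Bool),
        REPred B ∧ (∀ w, B w → ¬ ∃ k, H (T^[k] w) = true) ∧ Computable M ∧ Partrec F ∧ StagesG r ∧
          ∀ N, r N = true → OftenG q (M N) fun b => leadersG (stop T H) B N ∈ F (N, b) := by
  constructor
  · intro hQ
    have h1 : ComputablePred fun w => ¬ ∃ k, H (T^[k] w) = true := ComputablePred.not hQ
    refine ⟨fun w => ¬ ∃ k, H (T^[k] w) = true, 1, fun _ => 1, fun _ => Part.some 0,
      fun _ => true, h1.to_re, fun _ h => h, Computable.const 1, (Computable.const 0).partrec,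
      stagesG_all, fun N _ => oftenG_one _ ?_⟩
    have h2 : leadersG (stop T H) (fun w => ¬ ∃ k, H (T^[k] w) = true) N = 0 := by
      unfold leadersG
      have h3 : {w | encode w ≤ N ∧
          LeaderG (stop T H) (fun w => ¬ ∃ k, H (T^[k] w) = true) w} = ∅ := by
        rw [Set.eq_empty_iff_forall_notMem]
        rintro n ⟨_, h4, h5, _⟩
        by_cases h6 : ∃ k, H (T^[k] n) = true
        · obtain ⟨k, hk⟩ := (stop_reach T H n).2 h6
          refine h4 ⟨k + 1, k, by omega, ?_⟩
          rw [Function.iterate_succ_apply']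
          unfold stop at hk ⊢
          rw [hk]
          rfl
        · exact h5 n h6 ⟨0, 0, rfl⟩
      rw [h3, Set.ncard_empty]
    change leadersG (stop T H) (fun w => ¬ ∃ k, H (T^[k] w) = true) N ∈ (Part.some 0 : Part ℕ)
    rw [h2]
    exact Part.mem_some _
  · rintro ⟨B, q, M, F, r, hB, hBA, hM, hF, hr, h⟩
    exact gen hT hH hB hBA q hM hF hr.1 hr.2 h

/-- same length and same relevant letters -/
def Sim {A : Type} (v : ℕ) (w u : List A) : Prop :=
  w.length = u.length ∧ ∀ i, i % v = 0 → w[i]? = u[i]?

omit [Primcodable A] in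
lemma Sim_step {v : ℕ} {T : List A → List A} {P : Option A → List A}
    (hP : ∀ w, T w = w.drop v ++ P w.head?) {w u : List A} (h : Sim v w u) : Sim v (T w) (T u) := by
  obtain ⟨h1, h2⟩ := h
  have h3 : w.head? = u.head? := by
    have := h2 0 (Nat.zero_mod v)
    rw [List.head?_eq_getElem?, List.head?_eq_getElem?]
    exact this
  rw [hP, hP, h3]
  refine ⟨by simp only [List.length_append, List.length_drop, h1], fun i hi => ?_⟩
  rw [List.getElem?_append, List.getElem?_append, List.getElem?_drop, List.getElem?_drop,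
    List.length_drop, List.length_drop, h1, h2 (v + i) (by rw [Nat.add_mod_left]; exact hi)]

omit [Primcodable A] in
lemma Sim_iter {v : ℕ} {T : List A → List A} {P : Option A → List A}
    (hP : ∀ w, T w = w.drop v ++ P w.head?) {w u : List A} (h : Sim v w u) (k : ℕ) :
    Sim v (T^[k] w) (T^[k] u) := by
  induction k with
  | zero => exact h
  | succ k ih =>
    rw [Function.iterate_succ_apply', Function.iterate_succ_apply']
    exact Sim_step hP ih

/-- the words with other irrelevant letters -/
def vr {A : Type} (v a : ℕ) (c : ℕ → A) (e : ℕ → ℕ) (x : List A × ℕ) : List A :=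
  (List.range x.1.length).map fun i =>
    if i % v = 0 then x.1.getD i (c 0) else c (x.2 / a ^ e i % a)

omit [Primcodable A] in
lemma Sim_vr (v a : ℕ) (c : ℕ → A) (e : ℕ → ℕ) (w : List A) (k : ℕ) : Sim v w (vr v a c e (w, k)) := by
  refine ⟨by simp [vr], fun i hi => ?_⟩
  unfold vr
  by_cases h : i < w.length
  · simp [h, hi, List.getD_eq_getElem?_getD]
  · simp [h]

lemma vr_comp (v a : ℕ) {c : ℕ → A} (hc : Primrec c) {e : ℕ → ℕ} (he : Primrec e) :
    Computable (vr v a c e) := by
  have hp : Primrec (vr v a c e) := by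
    unfold vr
    refine Primrec.list_map (Primrec.list_range.comp (Primrec.list_length.comp Primrec.fst)) ?_
    have h1 : PrimrecPred fun y : (List A × ℕ) × ℕ => y.2 % v = 0 :=
      Primrec.eq.comp (Primrec.nat_mod.comp Primrec.snd (Primrec.const v)) (Primrec.const 0)
    have h2 : Primrec fun y : (List A × ℕ) × ℕ => y.1.1.getD y.2 (c 0) :=
      (Primrec.list_getD (c 0)).comp (Primrec.fst.comp Primrec.fst) Primrec.snd
    have h3 : Primrec fun y : (List A × ℕ) × ℕ => a ^ e y.2 := by
      have h4 : Primrec fun y : ℕ × ℕ => y.1 ^ y.2 := by fun_prop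
      exact h4.comp ((Primrec.const a).pair (he.comp Primrec.snd))
    exact Primrec.ite h1 h2 (hc.comp (Primrec.nat_mod.comp
      (Primrec.nat_div.comp (Primrec.snd.comp Primrec.fst) h3) (Primrec.const a)))
  exact hp.to_comp

omit [Primcodable A] in
lemma vr_inj {v a : ℕ} (ha : 0 < a) {c : ℕ → A} (hci : ∀ x < a, ∀ y < a, c x = c y → x = y)
    {e ι m : ℕ → ℕ} (hι : ∀ n, ∀ t < m n, ι t < n ∧ ι t % v ≠ 0 ∧ e (ι t) = t) {w : List A}
    {k k' : ℕ} (hk : k < a ^ m w.length) (hk' : k' < a ^ m w.length)
    (h : vr v a c e (w, k) = vr v a c e (w, k')) : k = k' := by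
  have h1 : ∀ t < m w.length, k / a ^ t % a = k' / a ^ t % a := by
    intro t ht
    obtain ⟨b1, b2, b3⟩ := hι w.length t ht
    have h2 := congrArg (fun l => l[ι t]?) h
    unfold vr at h2
    simp only [List.getElem?_map, List.getElem?_range b1, Option.map_some, b2, b3, if_false,
      Option.some.injEq] at h2
    exact hci _ (Nat.mod_lt _ ha) _ (Nat.mod_lt _ ha) h2
  have h2 : ∀ t ≤ m w.length, k % a ^ t = k' % a ^ t := by
    intro t
    induction t with
    | zero => intro _; simp [Nat.mod_one]
    | succ t ih =>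
      intro ht
      rw [Nat.mod_pow_succ, Nat.mod_pow_succ, ih (by omega), h1 t (by omega)]
  have h3 := h2 _ le_rfl
  rwa [Nat.mod_eq_of_lt hk, Nat.mod_eq_of_lt hk'] at h3

/-- the words of length `n` for which halting of `D` is not equivalent to non-halting of the computation -/
def ErrorsT {A : Type} (T : List A → List A) (H : List A → Bool) (D : List A →. ℕ) (n : ℕ) :
    Set (List A) := {w | w.length = n ∧ ((D w).Dom ↔ ∃ k, H (T^[k] w) = true)}

/-- **Most words suffice.** -/
theorem tag_avg [Finite A] {v a : ℕ} (ha : 0 < a) {T : List A → List A} (hT : Computable T)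
    {P : Option A → List A} (hP : ∀ w, T w = w.drop v ++ P w.head?)
    {c : ℕ → A} (hc : Primrec c) (hci : ∀ x < a, ∀ y < a, c x = c y → x = y)
    {e ι m : ℕ → ℕ} (he : Primrec e) (hm : Primrec m)
    (hι : ∀ n, ∀ t < m n, ι t < n ∧ ι t % v ≠ 0 ∧ e (ι t) = t) :
    (ComputablePred fun w : List A => ∃ k, (decide ((T^[k] w).length < v)) = true) ↔
      ∃ (q : ℕ) (M : ℕ → ℕ) (D : (ℕ × ℕ) × List A →. ℕ) (r : ℕ → Bool),
        Computable M ∧ Partrec D ∧ StagesG r ∧ ∀ N, r N = true → OftenG q (M N) fun b =>
          ∀ n ≤ N, 2 * (ErrorsT T (fun w => decide (w.length < v))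
            (fun w => D ((N, b), w)) n).ncard < a ^ m n := by
  have hH : Computable fun w : List A => decide (w.length < v) :=
    lt_dec_comp Primrec.list_length.to_comp (Computable.const v)
  constructor
  · intro hQ
    obtain ⟨g, hg, hg2⟩ := ComputablePred.computable_iff.1 hQ
    have h1 : Partrec fun x : (ℕ × ℕ) × List A =>
        (bif g x.2 then Part.none else Part.some 0 : Part ℕ) :=
      Partrec.cond (hg.comp Computable.snd) Partrec.none (Computable.const 0).partrec
    refine ⟨1, fun _ => 1, _, fun _ => true, Computable.const 1, h1, stagesG_all,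
      fun N _ => oftenG_one _ fun n _ => ?_⟩
    have h2 : ErrorsT T (fun w => decide (w.length < v))
        (fun w => (bif g w then Part.none else Part.some 0 : Part ℕ)) n = ∅ := by
      rw [Set.eq_empty_iff_forall_notMem]
      rintro w ⟨_, h3⟩
      have h4 : (∃ k, (decide ((T^[k] w).length < v)) = true) ↔ g w = true := by
        have := congrFun hg2 w
        simpa using this
      change (bif g w then Part.none else Part.some 0 : Part ℕ).Dom ↔
        ∃ k, (decide ((T^[k] w).length < v)) = true at h3
      rw [h4] at h3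
      cases h5 : g w
      · rw [h5] at h3
        simp at h3
      · rw [h5] at h3
        simp at h3
    change 2 * (ErrorsT T (fun w => decide (w.length < v))
        (fun w => (bif g w then Part.none else Part.some 0 : Part ℕ)) n).ncard < a ^ m n
    rw [h2, Set.ncard_empty]
    have : 0 < a ^ m n := Nat.pow_pos ha
    omega
  · rintro ⟨q, M, D, r, hM, hD, hr, h⟩
    have hK : Computable fun w : List A => a ^ m w.length :=
      pow_comp (Computable.const a) (hm.comp Primrec.list_length).to_comp
    have hSim : ∀ (w : List A) (k : ℕ),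
        (∃ i, decide ((T^[i] (vr v a c e (w, k))).length < v) = true) ↔
          ∃ i, decide ((T^[i] w).length < v) = true := by
      intro w k
      have h1 := fun i => (Sim_iter hP (Sim_vr v a c e w k) i).1
      constructor
      · rintro ⟨i, hi⟩
        exact ⟨i, by rw [h1]; exact hi⟩
      · rintro ⟨i, hi⟩
        exact ⟨i, by rw [← h1]; exact hi⟩
    refine gen_avg hT hH (vr_comp v a hc he) hK (size := List.length)
      Primrec.list_length.to_comp (fun w k _ => hSim w k) q hM hD hr.1 hr.2 fun N hN => ?_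
    obtain ⟨g1, g2⟩ := h N hN
    refine ⟨g1, g2.trans (Nat.mul_le_mul_left q (Set.ncard_le_ncard ?_ ?_))⟩
    · rintro b ⟨hb, hb2⟩
      refine ⟨hb, fun w hw => lt_of_le_of_lt (Nat.mul_le_mul_left 2 ?_) (hb2 w.length hw)⟩
      refine Set.ncard_le_ncard_of_injOn (fun k => vr v a c e (w, k)) ?_ ?_ ?_
      · rintro k ⟨_, hk2⟩
        exact ⟨(Sim_vr v a c e w k).1.symm, hk2⟩
      · rintro k ⟨hk, _⟩ k' ⟨hk', _⟩ hkk
        exact vr_inj ha hci hι hk hk' hkk
      · exact (List.finite_length_eq A w.length).subset fun u hu => hu.1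
    · exact (Set.finite_lt_nat (M N)).subset fun b hb => hb.1

end Pool.Agent.H447.TR
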