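import Pool.Agent.H447.TR.Core

/-!
# The tree above a number in the Collatz graph
-/

set_option autoImplicit false

namespace Pool.Agent.H447.TR

/-- the Collatz map -/
def co (n : ℕ) : ℕ := if n % 2 = 0 then n / 2 else 3 * n + 1

/-- the cycle -/
def gg (n : ℕ) : Bool := decide (n = 1) || (decide (n = 2) || decide (n = 4))

lemma co_comp : Computable co := by
  have h : Primrec co := by
    unfold co
    refine Primrec.ite ?_ ?_ ?_
    · exact Primrec.eq.comp (Primrec.nat_mod.comp Primrec.id (Primrec.const 2)) (Primrec.const 0)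
    · exact Primrec.nat_div.comp Primrec.id (Primrec.const 2)
    · exact Primrec.nat_add.comp (Primrec.nat_mul.comp (Primrec.const 3) Primrec.id) (Primrec.const 1)
  exact h.to_comp

lemma gg_inv (x : ℕ) (h : gg x = true) : gg (co x) = true := by
  unfold gg at h ⊢
  simp only [Bool.or_eq_true, decide_eq_true_eq] at h ⊢
  unfold co
  rcases h with rfl | rfl | rfl <;> simp

lemma gg_iff (n : ℕ) : (∃ k, gg (co^[k] n) = true) ↔ ∃ k, co^[k] n = 1 := by
  constructor
  · rintro ⟨k, hk⟩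
    unfold gg at hk
    simp only [Bool.or_eq_true, decide_eq_true_eq] at hk
    rcases hk with hk | hk | hk
    · exact ⟨k, hk⟩
    · refine ⟨1 + k, ?_⟩
      rw [Function.iterate_add_apply, hk]
      rfl
    · refine ⟨2 + k, ?_⟩
      rw [Function.iterate_add_apply, hk]
      rfl
  · rintro ⟨k, hk⟩
    exact ⟨k, by rw [hk]; rfl⟩

lemma gg_per (n k : ℕ) (h : gg (co^[k] n) = true) : ∃ i j, j < i ∧ co^[i] n = co^[j] n := by
  refine ⟨3 + k, k, by omega, ?_⟩
  rw [Function.iterate_add_apply]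
  unfold gg at h
  simp only [Bool.or_eq_true, decide_eq_true_eq] at h
  rcases h with h | h | h <;> rw [h] <;> rfl

/-- the trajectory reaches `1` -/
def Rc (n : ℕ) : Prop := ∃ k, gg (co^[k] n) = true

lemma Rc_iter (t n : ℕ) : Rc (co^[t] n) ↔ Rc n := by
  constructor
  · rintro ⟨k, hk⟩
    exact ⟨k + t, by rw [Function.iterate_add_apply]; exact hk⟩
  · rintro ⟨k, hk⟩
    refine ⟨k, ?_⟩
    rw [← Function.iterate_add_apply]
    exact g_mono gg_inv (by omega) hk

/-- the exponent -/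
def ex (x e : ℕ) : ℕ :=
  if x % 9 = 1 then 2 + 2 * e else if x % 9 = 2 then 1 + 2 * e else if x % 9 = 4 then 2 + 4 * e
  else if x % 9 = 5 then 3 + 2 * e else if x % 9 = 7 then 4 + 2 * e else 1 + 4 * e

/-- the child number `e` of `x` -/
def child (x e : ℕ) : ℕ := (2 ^ ex x e * x - 1) / 3

lemma child_spec {x e : ℕ} (h0 : 0 < x) (h3 : x % 3 ≠ 0) (he : e < 2) :
    3 * child x e + 1 = 2 ^ ex x e * x ∧ child x e % 3 ≠ 0 ∧ child x e ≤ 22 * x ∧ 1 ≤ ex x e ∧
      child x e % 2 = 1 := by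
  have h : x % 9 = 1 ∨ x % 9 = 2 ∨ x % 9 = 4 ∨ x % 9 = 5 ∨ x % 9 = 7 ∨ x % 9 = 8 := by omega
  have he' : e = 0 ∨ e = 1 := by omega
  unfold child ex
  rcases he' with rfl | rfl <;> rcases h with h | h | h | h | h | h <;> simp only [h] <;>
    norm_num <;> omega

lemma halve (a x : ℕ) : co^[a] (2 ^ a * x) = x := by
  induction a with
  | zero => simp
  | succ a ih =>
    rw [Function.iterate_succ_apply]
    have h1 : co (2 ^ (a + 1) * x) = 2 ^ a * x := by
      have h2 : 2 ^ (a + 1) * x = 2 * (2 ^ a * x) := by ring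
      unfold co
      rw [h2]
      generalize 2 ^ a * x = y
      rw [if_pos (by omega)]
      omega
    rw [h1]
    exact ih

lemma child_Rc {x e : ℕ} (h0 : 0 < x) (h3 : x % 3 ≠ 0) (he : e < 2) : Rc (child x e) ↔ Rc x := by
  obtain ⟨h1, _, _, _, h5⟩ := child_spec h0 h3 he
  have h6 : co (child x e) = 2 ^ ex x e * x := by
    unfold co
    rw [if_neg (by omega), h1]
  have h7 : co^[ex x e + 1] (child x e) = x := by
    rw [Function.iterate_succ_apply, h6, halve]
  rw [← h7, Rc_iter, h7]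

lemma two_pow_odd {a b x y : ℕ} (hx : x % 2 = 1) (hy : y % 2 = 1) (h : 2 ^ a * x = 2 ^ b * y) :
    a = b ∧ x = y := by
  induction a generalizing b with
  | zero =>
    cases b with
    | zero => simpa using h
    | succ b =>
      exfalso
      have h2 : 2 ^ (b + 1) * y = 2 * (2 ^ b * y) := by ring
      rw [h2] at h
      omega
  | succ a ih =>
    cases b with
    | zero =>
      exfalso
      have h2 : 2 ^ (a + 1) * x = 2 * (2 ^ a * x) := by ring
      rw [h2] at h
      omega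
    | succ b =>
      have h1 : 2 ^ (a + 1) * x = 2 * (2 ^ a * x) := by ring
      have h2 : 2 ^ (b + 1) * y = 2 * (2 ^ b * y) := by ring
      rw [h1, h2] at h
      have h3 := ih (by omega : 2 ^ a * x = 2 ^ b * y)
      exact ⟨by omega, h3.2⟩

lemma child_inj {x e y d : ℕ} (hx : x % 2 = 1) (hy : y % 2 = 1) (h3 : x % 3 ≠ 0)
    (h3' : y % 3 ≠ 0) (he : e < 2) (hd : d < 2) (h : child x e = child y d) : x = y ∧ e = d := by
  obtain ⟨h1, _⟩ := child_spec (by omega) h3 he
  obtain ⟨h2, _⟩ := child_spec (by omega) h3' hd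
  rw [h, h2] at h1
  obtain ⟨h4, h5⟩ := two_pow_odd hy hx h1
  refine ⟨h5.symm, ?_⟩
  rw [h5] at h4
  unfold ex at h4
  split_ifs at h4 <;> omega

/-- the node number `k` at the level `l` above `x` -/
def node (x l k : ℕ) : ℕ :=
  Nat.rec (motive := fun _ => ℕ) x (fun i y => child y (k / 2 ^ i % 2)) l

lemma node_succ (x l k : ℕ) : node x (l + 1) k = child (node x l k) (k / 2 ^ l % 2) := rfl

lemma node_spec {x : ℕ} (hx : x % 2 = 1) (h3 : x % 3 ≠ 0) (l k : ℕ) :
    node x l k % 2 = 1 ∧ node x l k % 3 ≠ 0 ∧ node x l k ≤ 22 ^ l * x ∧ (Rc (node x l k) ↔ Rc x) := by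
  induction l with
  | zero => exact ⟨hx, h3, by simp [node], Iff.rfl⟩
  | succ l ih =>
    obtain ⟨h1, h2, h4, h5⟩ := ih
    have h6 : k / 2 ^ l % 2 < 2 := Nat.mod_lt _ (by norm_num)
    rw [node_succ]
    obtain ⟨_, g2, g3, _, g5⟩ := child_spec (by omega) h2 h6
    refine ⟨g5, g2, ?_, (child_Rc (by omega) h2 h6).trans h5⟩
    calc child (node x l k) (k / 2 ^ l % 2) ≤ 22 * node x l k := g3
      _ ≤ 22 * (22 ^ l * x) := Nat.mul_le_mul_left _ h4
      _ = 22 ^ (l + 1) * x := by ring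

lemma node_inj {x : ℕ} (hx : x % 2 = 1) (h3 : x % 3 ≠ 0) (l k k' : ℕ)
    (h : node x l k = node x l k') : k % 2 ^ l = k' % 2 ^ l := by
  induction l with
  | zero => simp [Nat.mod_one]
  | succ l ih =>
    rw [node_succ, node_succ] at h
    obtain ⟨a1, a2, _, _⟩ := node_spec hx h3 l k
    obtain ⟨b1, b2, _, _⟩ := node_spec hx h3 l k'
    obtain ⟨h4, h5⟩ := child_inj a1 b1 a2 b2 (Nat.mod_lt _ (by norm_num))
      (Nat.mod_lt _ (by norm_num)) h
    rw [Nat.mod_pow_succ, Nat.mod_pow_succ, ih h4, h5]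

lemma ex_primrec : Primrec (fun x : ℕ × ℕ => ex x.1 x.2) := by
  unfold ex
  have h0 : ∀ r : ℕ, PrimrecPred fun x : ℕ × ℕ => x.1 % 9 = r := fun r =>
    Primrec.eq.comp (Primrec.nat_mod.comp Primrec.fst (Primrec.const 9)) (Primrec.const r)
  have h1 : ∀ a b : ℕ, Primrec fun x : ℕ × ℕ => a + b * x.2 := fun a b =>
    Primrec.nat_add.comp (Primrec.const a) (Primrec.nat_mul.comp (Primrec.const b) Primrec.snd)
  exact Primrec.ite (h0 1) (h1 2 2) (Primrec.ite (h0 2) (h1 1 2) (Primrec.ite (h0 4) (h1 2 4)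
    (Primrec.ite (h0 5) (h1 3 2) (Primrec.ite (h0 7) (h1 4 2) (h1 1 4)))))

lemma pow_comp {α : Type*} [Primcodable α] {f g : α → ℕ} (hf : Computable f) (hg : Computable g) :
    Computable fun x => f x ^ g x :=
  Computable.comp (f := fun y : ℕ × ℕ => y.1 ^ y.2) (g := fun x => (f x, g x))
    (show Primrec fun y : ℕ × ℕ => y.1 ^ y.2 by fun_prop).to_comp (hf.pair hg)

lemma child_comp : Computable (fun x : ℕ × ℕ => child x.1 x.2) := by
  have h1 : Computable fun x : ℕ × ℕ => 2 ^ ex x.1 x.2 := pow_comp (Computable.const 2) ex_primrec.to_comp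
  have h2 : Computable fun x : ℕ × ℕ => 2 ^ ex x.1 x.2 * x.1 - 1 :=
    Primrec.nat_sub.to_comp.comp (Primrec.nat_mul.to_comp.comp h1 Computable.fst) (Computable.const 1)
  exact Primrec.nat_div.to_comp.comp h2 (Computable.const 3)

lemma node_comp : Computable (fun x : (ℕ × ℕ) × ℕ => node x.1.1 x.1.2 x.2) := by
  refine Computable.nat_rec (f := fun x : (ℕ × ℕ) × ℕ => x.1.2) (g := fun x => x.1.1)
    (h := fun x p => child p.2 (x.2 / 2 ^ p.1 % 2)) (Computable.snd.comp Computable.fst)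
    (Computable.fst.comp Computable.fst) ?_
  have h1 : Computable fun y : ((ℕ × ℕ) × ℕ) × ℕ × ℕ => 2 ^ y.2.1 :=
    pow_comp (Computable.const 2) (Computable.fst.comp Computable.snd)
  have h2 : Computable fun y : ((ℕ × ℕ) × ℕ) × ℕ × ℕ => y.1.2 / 2 ^ y.2.1 % 2 :=
    Primrec.nat_mod.to_comp.comp (Primrec.nat_div.to_comp.comp
      (Computable.snd.comp Computable.fst) h1) (Computable.const 2)
  exact Computable.comp (f := fun x : ℕ × ℕ => child x.1 x.2)
    (g := fun y : ((ℕ × ℕ) × ℕ) × ℕ × ℕ => (y.2.2, y.1.2 / 2 ^ y.2.1 % 2)) child_comp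
    ((Computable.snd.comp Computable.snd).pair h2)

/-- the trajectory of a positive number contains an odd number which is not divisible by `3` -/
lemma root_exists (n : ℕ) (hn : 0 < n) : ∃ t, co^[t] n % 2 = 1 ∧ co^[t] n % 3 ≠ 0 := by
  have h1 : ∀ n : ℕ, 0 < n → n % 3 ≠ 0 → ∃ t, co^[t] n % 2 = 1 ∧ co^[t] n % 3 ≠ 0 := by
    intro n
    induction n using Nat.strong_induction_on with
    | _ n ih =>
      intro h0 h3
      by_cases h2 : n % 2 = 0
      · obtain ⟨t, ht⟩ := ih (n / 2) (by omega) (by omega) (by omega)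
        refine ⟨t + 1, ?_⟩
        rw [Function.iterate_succ_apply]
        have : co n = n / 2 := by unfold co; rw [if_pos h2]
        rw [this]
        exact ht
      · exact ⟨0, by simp only [Function.iterate_zero, id]; omega, h3⟩
  induction n using Nat.strong_induction_on with
  | _ n ih =>
    by_cases h2 : n % 2 = 0
    · obtain ⟨t, ht⟩ := ih (n / 2) (by omega) (by omega)
      refine ⟨t + 1, ?_⟩
      rw [Function.iterate_succ_apply]
      have : co n = n / 2 := by unfold co; rw [if_pos h2]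
      rw [this]
      exact ht
    · obtain ⟨t, ht⟩ := h1 (3 * n + 1) (by omega) (by omega)
      refine ⟨t + 1, ?_⟩
      rw [Function.iterate_succ_apply]
      have : co n = 3 * n + 1 := by unfold co; rw [if_neg h2]
      rw [this]
      exact ht

/-- sizes -/
lemma level_exists (X : ℕ) (hX : 0 < X) : ∃ N₀, ∀ N ≥ N₀, ∃ l, 22 ^ l * X ≤ N ∧ 32 * N < 32 ^ l := by
  obtain ⟨k0, hk0⟩ : ∃ k0, k0 = 704 * X := ⟨_, rfl⟩
  have h1 : ∀ l, 2 * k0 ≤ l → 22 ^ l * (704 * X) < 32 ^ l := by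
    intro l hl
    have h2 : 2 ^ k0 * 22 ^ (2 * k0) ≤ 32 ^ (2 * k0) := by
      rw [pow_mul, pow_mul, ← mul_pow]
      exact Nat.pow_le_pow_left (by norm_num) _
    have h3 : 704 * X < 2 ^ k0 := by rw [← hk0]; exact Nat.lt_two_pow_self
    obtain ⟨d, rfl⟩ : ∃ d, l = 2 * k0 + d := ⟨l - 2 * k0, by omega⟩
    calc 22 ^ (2 * k0 + d) * (704 * X) < 22 ^ (2 * k0 + d) * 2 ^ k0 :=
          Nat.mul_lt_mul_of_pos_left h3 (by positivity)
      _ = (2 ^ k0 * 22 ^ (2 * k0)) * 22 ^ d := by ring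
      _ ≤ 32 ^ (2 * k0) * 32 ^ d :=
          Nat.mul_le_mul h2 (Nat.pow_le_pow_left (by norm_num) _)
      _ = 32 ^ (2 * k0 + d) := by ring
  refine ⟨22 ^ (2 * k0) * X, fun N hN => ?_⟩
  have hN2 : 22 ^ (2 * k0) ≤ N / X := by
    rw [Nat.le_div_iff_mul_le hX]
    exact hN
  have hN3 : N / X ≠ 0 := by
    have : 0 < 22 ^ (2 * k0) := by positivity
    omega
  refine ⟨Nat.log 22 (N / X), ?_, ?_⟩
  · have := Nat.pow_log_le_self 22 hN3
    exact (Nat.le_div_iff_mul_le hX).1 this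
  · have h2 : 2 * k0 ≤ Nat.log 22 (N / X) := (Nat.le_log_iff_pow_le (by norm_num) hN3).2 hN2
    have h3 := h1 _ h2
    have h4 : N / X < 22 ^ (Nat.log 22 (N / X) + 1) := Nat.lt_pow_succ_log_self (by norm_num) _
    rw [Nat.div_lt_iff_lt_mul hX, pow_succ] at h4
    refine lt_trans ?_ h3
    calc 32 * N < 32 * (22 ^ Nat.log 22 (N / X) * 22 * X) := by omega
      _ = 22 ^ Nat.log 22 (N / X) * (704 * X) := by ring

end Pool.Agent.H447.TR
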